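import Mathlib

/-! Random chains of nested sets in an edge coloured complete graph, with few bad histories. -/

namespace Pool.Agent.H15.RR

open Finset Classical

variable {α : Type*} {k : ℕ}

/-- The candidate set at the level `j` for the history `h` in the colour `c`. -/
noncomputable def cnd (col : α → α → Fin k) (B : ℕ → Finset α) (c : Fin k) (j : ℕ)
    (h : Finset (ℕ × α)) : Finset α :=
  (B j).filter (fun y => ∀ p ∈ h, j < p.1 → col p.2 y = c)

/-- The level `j` is bad for the history `h`. -/
def BadAt (col : α → α → Fin k) (B : ℕ → Finset α) (cs : ℕ → Fin k) (M : ℕ) (c : Fin k) (j : ℕ)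
    (h : Finset (ℕ × α)) : Prop :=
  cs j = c ∧ M * (cnd col B c j h).card < (B j).card

lemma cnd_congr (col : α → α → Fin k) (B B' : ℕ → Finset α) (c : Fin k) (j : ℕ)
    (h : Finset (ℕ × α)) (hB : B j = B' j) : cnd col B c j h = cnd col B' c j h := by
  unfold cnd; rw [hB]

lemma majority (col : α → α → Fin k) (B : Finset α) (hk : 0 < k) (z : α) :
    ∃ c : Fin k, B.card ≤ k * (B.filter (fun y => col z y = c)).card := by
  by_contra hcon
  push Not at hcon
  have h1 : B.card = ∑ c : Fin k, (B.filter (fun y => col z y = c)).card :=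
    card_eq_sum_card_fiberwise (fun _ _ => mem_univ _)
  have : Nonempty (Fin k) := ⟨⟨0, hk⟩⟩
  have h2 : ∑ c : Fin k, k * (B.filter (fun y => col z y = c)).card < ∑ c : Fin k, B.card :=
    sum_lt_sum_of_nonempty univ_nonempty fun c _ => hcon c
  rw [← mul_sum, ← h1, sum_const, card_univ, Fintype.card_fin, smul_eq_mul] at h2
  exact lt_irrefl _ h2

theorem chain_lemma (col : α → α → Fin k) (hsymm : ∀ a b, col a b = col b a) (hk : 0 < k) (M : ℕ)
    {ι : Type*} (s : Finset ι) (cc : ι → Fin k) (h : ι → Finset (ℕ × α)) (P' : ℕ) :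
    ∀ (j0 : ℕ) (B0 : Finset α) (_ : B0.Nonempty) (w : ι → ℝ) (_ : ∀ i ∈ s, 0 ≤ w i)
      (_ : ∀ i ∈ s, ∀ p ∈ h i, p.1 < j0 + P'),
    ∃ (B : ℕ → Finset α) (cs : ℕ → Fin k), B j0 = B0 ∧
      (∀ j, j0 ≤ j → j < j0 + P' → B (j + 1) ⊆ B j) ∧
      (∀ j, j0 ≤ j → j < j0 + P' → (B j).card ≤ k * (B (j + 1)).card) ∧
      ∑ i ∈ s, w i * (if ∀ p ∈ h i, j0 ≤ p.1 → p.2 ∈ B p.1 then
        (M : ℝ) ^ ((Ico j0 (j0 + P')).filter (fun j => BadAt col B cs M (cc i) j (h i))).card
        else 0) ≤
      2 ^ P' * ∑ i ∈ s, w i * (if ∀ p ∈ h i, j0 ≤ p.1 → p.2 ∈ B0 then 1 else 0) := by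
  induction P' with
  | zero =>
    intro j0 B0 hB0 w hw hlt
    refine ⟨fun _ => B0, fun _ => ⟨0, hk⟩, rfl, by intro j h1 h2; omega,
      by intro j h1 h2; omega, ?_⟩
    rw [pow_zero, one_mul]
    apply sum_le_sum
    intro i hi
    apply mul_le_mul_of_nonneg_left _ (hw i hi)
    rw [add_zero, Ico_self, filter_empty, card_empty, pow_zero]
  | succ P' ih =>
    intro j0 B0 hB0 w hw hlt
    choose cz hcz using majority col B0 hk
    obtain ⟨N, hN⟩ : ∃ N : α → Finset α, N = fun z => B0.filter (fun y => col z y = cz z) :=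
      ⟨_, rfl⟩
    have hNz : ∀ z y, y ∈ N z ↔ y ∈ B0 ∧ col z y = cz z := by intro z y; rw [hN, mem_filter]
    obtain ⟨C, hC⟩ : ∃ C : ι → Finset α, C = fun i => B0.filter
      (fun y => ∀ p ∈ h i, j0 < p.1 → col p.2 y = cc i) := ⟨_, rfl⟩
    obtain ⟨w', hw'⟩ : ∃ w' : α → ι → ℝ, w' = fun z i => w i *
      ((if cz z = cc i ∧ M * (C i).card < B0.card then (M : ℝ) else 1) *
        (if ∀ p ∈ h i, p.1 = j0 → p.2 ∈ B0 then 1 else 0)) := ⟨_, rfl⟩
    -- averaging
    obtain ⟨z, hz, hzs⟩ : ∃ z ∈ B0, ∑ i ∈ s, w' z i *
        (if ∀ p ∈ h i, j0 + 1 ≤ p.1 → p.2 ∈ N z then 1 else 0) ≤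
        2 * ∑ i ∈ s, w i * (if ∀ p ∈ h i, j0 ≤ p.1 → p.2 ∈ B0 then 1 else 0) := by
      by_contra hcon
      push Not at hcon
      have h1 := sum_lt_sum_of_nonempty hB0 hcon
      rw [sum_const, nsmul_eq_mul, sum_comm] at h1
      have h2 : ∑ i ∈ s, ∑ z ∈ B0, w' z i *
          (if ∀ p ∈ h i, j0 + 1 ≤ p.1 → p.2 ∈ N z then (1:ℝ) else 0) ≤
          ∑ i ∈ s, B0.card * (2 * (w i * (if ∀ p ∈ h i, j0 ≤ p.1 → p.2 ∈ B0 then 1 else 0))) := by
        apply sum_le_sum
        intro i hi
        have h3 : ∀ z ∈ B0, w' z i * (if ∀ p ∈ h i, j0 + 1 ≤ p.1 → p.2 ∈ N z then (1:ℝ) else 0) ≤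
            (w i * (if ∀ p ∈ h i, j0 ≤ p.1 → p.2 ∈ B0 then 1 else 0)) *
            (1 + (if M * (C i).card < B0.card then (M:ℝ) else 0) *
              (if z ∈ C i then 1 else 0)) := by
          intro z hz
          have hwi := hw i hi
          have hM0 : (0:ℝ) ≤ M := Nat.cast_nonneg _
          by_cases hv : ∀ p ∈ h i, j0 + 1 ≤ p.1 → p.2 ∈ N z
          swap
          · rw [if_neg hv, mul_zero]
            apply mul_nonneg
            · apply mul_nonneg hwi; split_ifs <;> norm_num
            · have : (0:ℝ) ≤ (if M * (C i).card < B0.card then (M:ℝ) else 0) *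
                (if z ∈ C i then 1 else 0) := by
                apply mul_nonneg
                · split_ifs
                  · exact hM0
                  · exact le_rfl
                · split_ifs <;> norm_num
              linarith
          rw [if_pos hv, mul_one, hw']
          beta_reduce
          by_cases he : ∀ p ∈ h i, p.1 = j0 → p.2 ∈ B0
          swap
          · rw [if_neg he, mul_zero, mul_zero]
            apply mul_nonneg
            · apply mul_nonneg hwi; split_ifs <;> norm_num
            · have : (0:ℝ) ≤ (if M * (C i).card < B0.card then (M:ℝ) else 0) *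
                (if z ∈ C i then 1 else 0) := by
                apply mul_nonneg
                · split_ifs
                  · exact hM0
                  · exact le_rfl
                · split_ifs <;> norm_num
              linarith
          have hI : ∀ p ∈ h i, j0 ≤ p.1 → p.2 ∈ B0 := by
            intro p hp hj
            rcases hj.eq_or_lt with h4 | h4
            · exact he p hp h4.symm
            · exact ((hNz _ _).mp (hv p hp h4)).1
          rw [if_pos he, if_pos hI, mul_one, mul_one]
          apply mul_le_mul_of_nonneg_left _ hwi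
          by_cases hb : cz z = cc i ∧ M * (C i).card < B0.card
          · have hzC : z ∈ C i := by
              rw [hC, mem_filter]
              refine ⟨hz, fun p hp hj => ?_⟩
              have h4 := ((hNz _ _).mp (hv p hp hj)).2
              rw [hsymm, h4, hb.1]
            rw [if_pos hb, if_pos hb.2, if_pos hzC, mul_one]
            linarith
          · rw [if_neg hb]
            have : (0:ℝ) ≤ (if M * (C i).card < B0.card then (M:ℝ) else 0) *
              (if z ∈ C i then 1 else 0) := by
              apply mul_nonneg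
              · split_ifs
                · exact hM0
                · exact le_rfl
              · split_ifs <;> norm_num
            linarith
        refine (sum_le_sum h3).trans ?_
        rw [← mul_sum, sum_add_distrib, sum_const, nsmul_eq_mul, mul_one, ← mul_sum]
        have h4 : ∑ z ∈ B0, (if z ∈ C i then (1:ℝ) else 0) = (C i).card := by
          rw [sum_ite_mem, sum_const, nsmul_eq_mul, mul_one]
          congr 2
          rw [hC]
          exact inter_eq_right.mpr (filter_subset _ _)
        rw [h4]
        have h5 : (if M * (C i).card < B0.card then (M:ℝ) else 0) * (C i).card ≤ B0.card := by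
          split_ifs with h6
          · have : ((M * (C i).card : ℕ) : ℝ) ≤ (B0.card : ℝ) := by exact_mod_cast h6.le
            rwa [Nat.cast_mul] at this
          · rw [zero_mul]; exact Nat.cast_nonneg _
        have h6 : 0 ≤ w i * (if ∀ p ∈ h i, j0 ≤ p.1 → p.2 ∈ B0 then (1:ℝ) else 0) := by
          apply mul_nonneg (hw i hi); split_ifs <;> norm_num
        calc _ ≤ w i * (if ∀ p ∈ h i, j0 ≤ p.1 → p.2 ∈ B0 then (1:ℝ) else 0) *
              ((B0.card : ℝ) + B0.card) := by
              apply mul_le_mul_of_nonneg_left _ h6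
              linarith
          _ = _ := by ring
      rw [← mul_sum, ← mul_sum] at h2
      linarith
    have hw'0 : ∀ i ∈ s, 0 ≤ w' z i := by
      intro i hi
      rw [hw']
      apply mul_nonneg (hw i hi)
      apply mul_nonneg
      · split_ifs
        · exact Nat.cast_nonneg _
        · norm_num
      · split_ifs <;> norm_num
    have hNne : (N z).Nonempty := by
      rw [← card_pos]
      by_contra hcon
      have h0 : (N z).card = 0 := by omega
      have h1 := hcz z
      have h2 : (B0.filter (fun y => col z y = cz z)).card = 0 := by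
        rw [hN] at h0; exact h0
      rw [h2, mul_zero] at h1
      have := card_pos.mpr hB0
      omega
    obtain ⟨B', cs', hB', hnest, hcard, hsum⟩ := ih (j0 + 1) (N z) hNne (w' z) hw'0 (by
      intro i hi p hp
      have := hlt i hi p hp
      omega)
    have hBne : ∀ j, j0 + 1 ≤ j → Function.update B' j0 B0 j = B' j := by
      intro j hj
      rw [Function.update_of_ne (by omega)]
    have hcne : ∀ j, j0 + 1 ≤ j → Function.update cs' j0 (cz z) j = cs' j := by
      intro j hj
      rw [Function.update_of_ne (by omega)]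
    refine ⟨Function.update B' j0 B0, Function.update cs' j0 (cz z), Function.update_self _ _ _,
      ?_, ?_, ?_⟩
    · intro j hj1 hj2
      rcases hj1.eq_or_lt with h1 | h1
      · subst h1
        rw [hBne _ le_rfl, Function.update_self, hB']
        intro y hy
        exact ((hNz _ _).mp hy).1
      · rw [hBne j h1, hBne (j + 1) (by omega)]
        exact hnest j h1 (by omega)
    · intro j hj1 hj2
      rcases hj1.eq_or_lt with h1 | h1
      · subst h1
        rw [hBne _ le_rfl, Function.update_self, hB', hN]
        exact hcz z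
      · rw [hBne j h1, hBne (j + 1) (by omega)]
        exact hcard j h1 (by omega)
    · have hkey : ∀ i ∈ s, w i * (if ∀ p ∈ h i, j0 ≤ p.1 → p.2 ∈ Function.update B' j0 B0 p.1 then
          (M : ℝ) ^ ((Ico j0 (j0 + (P' + 1))).filter (fun j => BadAt col
            (Function.update B' j0 B0) (Function.update cs' j0 (cz z)) M (cc i) j (h i))).card
          else 0) = w' z i * (if ∀ p ∈ h i, j0 + 1 ≤ p.1 → p.2 ∈ B' p.1 then
          (M : ℝ) ^ ((Ico (j0 + 1) (j0 + 1 + P')).filter (fun j => BadAt col B' cs' M (cc i) j
            (h i))).card else 0) := by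
        intro i hi
        have hiff : (∀ p ∈ h i, j0 ≤ p.1 → p.2 ∈ Function.update B' j0 B0 p.1) ↔
            (∀ p ∈ h i, p.1 = j0 → p.2 ∈ B0) ∧ (∀ p ∈ h i, j0 + 1 ≤ p.1 → p.2 ∈ B' p.1) := by
          constructor
          · intro hv
            refine ⟨fun p hp hj => ?_, fun p hp hj => ?_⟩
            · have := hv p hp hj.ge
              rwa [hj, Function.update_self] at this
            · have := hv p hp (by omega)
              rwa [hBne _ hj] at this
          · rintro ⟨hv1, hv2⟩ p hp hj
            rcases hj.eq_or_lt with h4 | h4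
            · rw [← h4, Function.update_self]; exact hv1 p hp h4.symm
            · rw [hBne _ h4]; exact hv2 p hp h4
        by_cases h1 : ∀ p ∈ h i, p.1 = j0 → p.2 ∈ B0
        swap
        · rw [if_neg (fun hc => h1 (hiff.mp hc).1), hw']
          beta_reduce
          rw [if_neg h1]; ring
        by_cases h2 : ∀ p ∈ h i, j0 + 1 ≤ p.1 → p.2 ∈ B' p.1
        swap
        · rw [if_neg (fun hc => h2 (hiff.mp hc).2), if_neg h2]; ring
        rw [if_pos (hiff.mpr ⟨h1, h2⟩), if_pos h2, hw']
        beta_reduce
        rw [if_pos h1, mul_one]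
        have h3 : Ico j0 (j0 + (P' + 1)) = insert j0 (Ico (j0 + 1) (j0 + 1 + P')) := by
          ext j; simp only [mem_Ico, mem_insert]; omega
        have h4 : (Ico (j0 + 1) (j0 + 1 + P')).filter (fun j => BadAt col
            (Function.update B' j0 B0) (Function.update cs' j0 (cz z)) M (cc i) j (h i)) =
            (Ico (j0 + 1) (j0 + 1 + P')).filter (fun j => BadAt col B' cs' M (cc i) j (h i)) := by
          apply filter_congr
          intro j hj
          rw [mem_Ico] at hj
          unfold BadAt
          rw [cnd_congr col _ B' (cc i) j (h i) (hBne _ hj.1), hBne _ hj.1, hcne _ hj.1]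
        have h5 : BadAt col (Function.update B' j0 B0) (Function.update cs' j0 (cz z)) M (cc i) j0
            (h i) ↔ (cz z = cc i ∧ M * (C i).card < B0.card) := by
          unfold BadAt cnd
          rw [Function.update_self, Function.update_self, hC]
        rw [h3, filter_insert, h4]
        by_cases h6 : cz z = cc i ∧ M * (C i).card < B0.card
        · rw [if_pos (h5.mpr h6), if_pos h6, card_insert_of_notMem, pow_succ]
          · ring
          · intro hc
            have := (mem_filter.mp hc).1
            rw [mem_Ico] at this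
            omega
        · rw [if_neg (fun hc => h6 (h5.mp hc)), if_neg h6, mul_one]
      rw [sum_congr rfl hkey]
      refine hsum.trans ?_
      calc (2:ℝ) ^ P' * ∑ i ∈ s, w' z i *
            (if ∀ p ∈ h i, j0 + 1 ≤ p.1 → p.2 ∈ N z then 1 else 0) ≤
            2 ^ P' * (2 * ∑ i ∈ s, w i * (if ∀ p ∈ h i, j0 ≤ p.1 → p.2 ∈ B0 then 1 else 0)) :=
            mul_le_mul_of_nonneg_left hzs (by positivity)
        _ = _ := by ring

end Pool.Agent.H15.RR
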