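import Pool.Agent.H15.RR.GoodChain

/-! Embedding bounded degree graphs along a chain. -/

namespace Pool.Agent.H15.RR

open Finset Classical

variable {α : Type*} {k : ℕ}

/-- The history of the vertex `w` in a partial embedding. -/
noncomputable def hist {X : Type*} (H : SimpleGraph X) (E : Finset X) (φ : X → α) (τ : X → ℕ)
    (w : X) : Finset (ℕ × α) :=
  (E.filter (H.Adj w)).image (fun u => (τ u, φ u))

lemma mem_hist {X : Type*} {H : SimpleGraph X} {E : Finset X} {φ : X → α} {τ : X → ℕ} {w : X}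
    {p : ℕ × α} : p ∈ hist H E φ τ w ↔ ∃ u ∈ E, H.Adj w u ∧ (τ u, φ u) = p := by
  unfold hist
  rw [mem_image]
  constructor
  · rintro ⟨u, hu, h⟩
    rw [mem_filter] at hu
    exact ⟨u, hu.1, hu.2, h⟩
  · rintro ⟨u, hu, h, h2⟩
    exact ⟨u, mem_filter.mpr ⟨hu, h⟩, h2⟩

/-- partial embeddings -/
structure St {X : Type*} (H : SimpleGraph X) (col : α → α → Fin k)
    (B : ℕ → Finset α) (cs : ℕ → Fin k) (M P b R D : ℕ) (c : Fin k) (W : Finset X) (t : ℕ)
    (E : Finset X) (φ : X → α) (τ : X → ℕ) : Prop where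
  sub : E ⊆ W
  lev : ∀ v ∈ E, t ≤ τ v ∧ τ v < P ∧ φ v ∈ B (τ v)
  inj : Set.InjOn φ E
  adj : ∀ u ∈ E, ∀ v ∈ E, H.Adj u v → τ u ≠ τ v ∧ col (φ u) (φ v) = c
  good : ∀ w, w ∉ E → GoodH col B cs M P b R c (D - (E.filter (H.Adj w)).card)
    (hist H E φ τ w)

/-- the record of the completed levels -/
def Rec {X : Type*} (H : SimpleGraph X) (col : α → α → Fin k)
    (B : ℕ → Finset α) (cs : ℕ → Fin k) (M P : ℕ) (c : Fin k) (W : Finset X) (t : ℕ)
    (E : Finset X) (φ : X → α) (τ : X → ℕ) : Prop :=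
  ∀ w ∈ W, w ∉ E → ∀ j, t ≤ j → j < P → cs j = c →
    BadAt col B cs M c j (hist H E φ τ w) ∨ ∃ u ∈ E, H.Adj w u ∧ τ u = j

lemma cnd_insert (col : α → α → Fin k) (B : ℕ → Finset α) (c : Fin k) (j t : ℕ) (x : α)
    (h : Finset (ℕ × α)) (htj : t ≤ j) : cnd col B c j (insert (t, x) h) = cnd col B c j h := by
  unfold cnd
  apply filter_congr
  intro y _
  constructor
  · intro h1 p hp; exact h1 p (mem_insert_of_mem hp)
  · intro h1 p hp hj
    rw [mem_insert] at hp
    rcases hp with rfl | hp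
    · simp only at hj; omega
    · exact h1 p hp hj

lemma hist_update_adj {X : Type*} {H : SimpleGraph X} {E : Finset X} {φ : X → α} {τ : X → ℕ}
    {w v : X} (hw : w ∉ E) (hvw : H.Adj v w) (x : α) (t : ℕ) :
    hist H (insert w E) (Function.update φ w x) (Function.update τ w t) v =
      insert (t, x) (hist H E φ τ v) := by
  ext p
  rw [mem_insert, mem_hist, mem_hist]
  constructor
  · rintro ⟨u, hu, hvu, hp⟩
    rw [mem_insert] at hu
    rcases hu with rfl | hu
    · left; rw [← hp, Function.update_self, Function.update_self]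
    · right
      have hne : u ≠ w := fun h => hw (h ▸ hu)
      rw [Function.update_of_ne hne, Function.update_of_ne hne] at hp
      exact ⟨u, hu, hvu, hp⟩
  · rintro (rfl | ⟨u, hu, hvu, hp⟩)
    · exact ⟨w, mem_insert_self _ _, hvw, by rw [Function.update_self, Function.update_self]⟩
    · have hne : u ≠ w := fun h => hw (h ▸ hu)
      exact ⟨u, mem_insert_of_mem hu, hvu, by
        rw [Function.update_of_ne hne, Function.update_of_ne hne]; exact hp⟩

lemma hist_update_not {X : Type*} {H : SimpleGraph X} {E : Finset X} {φ : X → α} {τ : X → ℕ}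
    {w v : X} (hw : w ∉ E) (hvw : ¬ H.Adj v w) (x : α) (t : ℕ) :
    hist H (insert w E) (Function.update φ w x) (Function.update τ w t) v = hist H E φ τ v := by
  ext p
  rw [mem_hist, mem_hist]
  constructor
  · rintro ⟨u, hu, hvu, hp⟩
    rw [mem_insert] at hu
    rcases hu with rfl | hu
    · exact absurd hvu hvw
    · have hne : u ≠ w := fun h => hw (h ▸ hu)
      rw [Function.update_of_ne hne, Function.update_of_ne hne] at hp
      exact ⟨u, hu, hvu, hp⟩
  · rintro ⟨u, hu, hvu, hp⟩
    have hne : u ≠ w := fun h => hw (h ▸ hu)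
    exact ⟨u, mem_insert_of_mem hu, hvu, by
      rw [Function.update_of_ne hne, Function.update_of_ne hne]; exact hp⟩

theorem extend {X : Type*} [Fintype X] (H : SimpleGraph X) (col : α → α → Fin k)
    (hsymm : ∀ a b, col a b = col b a)
    (B : ℕ → Finset α) (cs : ℕ → Fin k) (M P b R D : ℕ) (hDM : 0 < M) (hR : R = 4 * (D + 1) * M)
    (hdeg : ∀ x, (univ.filter (H.Adj x)).card ≤ D) (c : Fin k) (W : Finset X) (t : ℕ)
    (E : Finset X) (φ : X → α) (τ : X → ℕ) (hS : St H col B cs M P b R D c W t E φ τ)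
    (hRec : Rec H col B cs M P c W (t + 1) E φ τ) (htP : t < P) (hct : cs t = c)
    (hbig : 2 * M * Fintype.card X ≤ (B t).card)
    (w : X) (hwW : w ∈ W) (hwE : w ∉ E) (hnb : ¬ BadAt col B cs M c t (hist H E φ τ w))
    (hnt : ∀ u ∈ E, H.Adj w u → τ u ≠ t) :
    ∃ x, St H col B cs M P b R D c W t (insert w E) (Function.update φ w x)
      (Function.update τ w t) ∧
      Rec H col B cs M P c W (t + 1) (insert w E) (Function.update φ w x)
        (Function.update τ w t) := by
  obtain ⟨Cd, hCd⟩ : ∃ Cd, Cd = cnd col B c t (hist H E φ τ w) := ⟨_, rfl⟩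
  have hCdB : (B t).card ≤ M * Cd.card := by
    unfold BadAt at hnb
    rw [not_and, not_lt] at hnb
    rw [hCd]; exact hnb hct
  -- bad sets
  obtain ⟨Bd, hBd⟩ : ∃ Bd : X → Finset α, Bd = fun v => (B t).filter (fun x =>
    ¬ GoodH col B cs M P b R c (D - (E.filter (H.Adj v)).card - 1)
      (insert (t, x) (hist H E φ τ v))) := ⟨_, rfl⟩
  obtain ⟨Nw, hNw⟩ : ∃ Nw, Nw = (univ.filter (H.Adj w)).filter (fun v => v ∉ E) := ⟨_, rfl⟩
  have hNwc : Nw.card ≤ D := by
    rw [hNw]; exact (card_le_card (filter_subset _ _)).trans (hdeg w)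
  have hdegE : ∀ v ∈ Nw, (E.filter (H.Adj v)).card + 1 ≤ D := by
    intro v hv
    rw [hNw, mem_filter, mem_filter] at hv
    have h1 : w ∉ E.filter (H.Adj v) := fun h => hwE (mem_filter.mp h).1
    rw [← card_insert_of_notMem h1]
    refine (card_le_card ?_).trans (hdeg v)
    intro u hu
    rw [mem_insert] at hu
    rw [mem_filter]
    refine ⟨mem_univ _, ?_⟩
    rcases hu with rfl | hu
    · exact hv.1.2.symm
    · exact (mem_filter.mp hu).2
  have hBdc : ∀ v ∈ Nw, R * (Bd v).card ≤ (B t).card := by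
    intro v hv
    have h1 := hdegE v hv
    have hvE : v ∉ E := by rw [hNw, mem_filter] at hv; exact hv.2
    have h2 := hS.good v hvE
    obtain ⟨s, hs⟩ : ∃ s, D - (E.filter (H.Adj v)).card = s + 1 :=
      ⟨D - (E.filter (H.Adj v)).card - 1, by omega⟩
    have h3 : D - (E.filter (H.Adj v)).card - 1 = s := by omega
    rw [hs, GoodH] at h2
    rw [hBd]
    simp only [h3]
    exact h2.2 t htP hct
  obtain ⟨x, hxC, hxn⟩ : ∃ x ∈ Cd, x ∉ E.image φ ∪ Nw.biUnion Bd := by
    by_contra hcon
    push Not at hcon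
    have hsub : Cd ⊆ E.image φ ∪ Nw.biUnion Bd := fun y hy => hcon y hy
    have h1 : Cd.card ≤ E.card + ∑ v ∈ Nw, (Bd v).card := by
      refine (card_le_card hsub).trans ((card_union_le _ _).trans ?_)
      exact add_le_add card_image_le card_biUnion_le
    have h2 : R * ∑ v ∈ Nw, (Bd v).card ≤ D * (B t).card := by
      rw [mul_sum]
      refine (sum_le_sum hBdc).trans ?_
      rw [sum_const, smul_eq_mul]
      exact Nat.mul_le_mul_right _ hNwc
    have h3 : E.card + 1 ≤ Fintype.card X := by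
      rw [← card_insert_of_notMem hwE]
      exact card_le_univ _
    have h4 : 2 * M * Fintype.card X ≤ M * Cd.card := hbig.trans hCdB
    have h5 : 2 * Fintype.card X ≤ Cd.card := by
      have : M * (2 * Fintype.card X) ≤ M * Cd.card := by
        calc M * (2 * Fintype.card X) = 2 * M * Fintype.card X := by ring
          _ ≤ _ := h4
      exact Nat.le_of_mul_le_mul_left this hDM
    obtain ⟨Sm, hSm⟩ : ∃ Sm, Sm = ∑ v ∈ Nw, (Bd v).card := ⟨_, rfl⟩
    rw [← hSm] at h1 h2
    have h6 : M * (4 * (D + 1) * Sm) ≤ M * (D * Cd.card) := by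
      calc M * (4 * (D + 1) * Sm) = R * Sm := by rw [hR]; ring
        _ ≤ D * (B t).card := h2
        _ ≤ D * (M * Cd.card) := Nat.mul_le_mul_left _ hCdB
        _ = _ := by ring
    have h7 : 4 * (D + 1) * Sm ≤ D * Cd.card := Nat.le_of_mul_le_mul_left h6 hDM
    have h8 : (D + 1) * (4 * Sm) ≤ (D + 1) * Cd.card := by
      calc (D + 1) * (4 * Sm) = 4 * (D + 1) * Sm := by ring
        _ ≤ D * Cd.card := h7
        _ ≤ _ := Nat.mul_le_mul_right _ (by omega)
    have h9 : 4 * Sm ≤ Cd.card := Nat.le_of_mul_le_mul_left h8 (by omega)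
    omega
  rw [mem_union, not_or] at hxn
  obtain ⟨hxE, hxB⟩ := hxn
  rw [hCd] at hxC
  unfold cnd at hxC
  rw [mem_filter] at hxC
  have hupφ : ∀ u ∈ E, Function.update φ w x u = φ u := by
    intro u hu
    rw [Function.update_of_ne]
    rintro rfl; exact hwE hu
  have hupτ : ∀ u ∈ E, Function.update τ w t u = τ u := by
    intro u hu
    rw [Function.update_of_ne]
    rintro rfl; exact hwE hu
  have hcolw : ∀ u ∈ E, H.Adj w u → col (φ u) x = c := by
    intro u hu hwu
    apply hxC.2 (τ u, φ u) (mem_hist.mpr ⟨u, hu, hwu, rfl⟩)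
    have h1 := (hS.lev u hu).1
    have h2 := hnt u hu hwu
    simp only
    omega
  refine ⟨x, ⟨?_, ?_, ?_, ?_, ?_⟩, ?_⟩
  · intro v hv
    rw [mem_insert] at hv
    rcases hv with rfl | hv
    · exact hwW
    · exact hS.sub hv
  · intro v hv
    rw [mem_insert] at hv
    rcases hv with rfl | hv
    · rw [Function.update_self, Function.update_self]
      exact ⟨le_rfl, htP, hxC.1⟩
    · rw [hupφ v hv, hupτ v hv]; exact hS.lev v hv
  · intro u hu v hv huv
    rw [mem_coe, mem_insert] at hu hv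
    rcases hu with rfl | hu
    · rcases hv with rfl | hv
      · rfl
      · rw [Function.update_self, hupφ v hv] at huv
        exact absurd (mem_image.mpr ⟨v, hv, huv.symm⟩) hxE
    · rcases hv with rfl | hv
      · rw [Function.update_self, hupφ u hu] at huv
        exact absurd (mem_image.mpr ⟨u, hu, huv⟩) hxE
      · rw [hupφ u hu, hupφ v hv] at huv
        exact hS.inj hu hv huv
  · intro u hu v hv huv
    rw [mem_insert] at hu hv
    rcases hu with rfl | hu
    · rcases hv with rfl | hv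
      · exact absurd huv H.irrefl
      · rw [Function.update_self, Function.update_self, hupφ v hv, hupτ v hv]
        exact ⟨(hnt v hv huv).symm, by rw [hsymm]; exact hcolw v hv huv⟩
    · rcases hv with rfl | hv
      · rw [Function.update_self, Function.update_self, hupφ u hu, hupτ u hu]
        exact ⟨hnt u hu huv.symm, hcolw u hu huv.symm⟩
      · rw [hupφ u hu, hupφ v hv, hupτ u hu, hupτ v hv]
        exact hS.adj u hu v hv huv
  · intro v hv
    rw [mem_insert, not_or] at hv
    obtain ⟨hvw, hvE⟩ := hv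
    by_cases hadj : H.Adj v w
    · rw [hist_update_adj hwE hadj]
      have e1 : (insert w E).filter (H.Adj v) = insert w (E.filter (H.Adj v)) := by
        rw [filter_insert, if_pos hadj]
      have e2 : w ∉ E.filter (H.Adj v) := fun h => hwE (mem_filter.mp h).1
      rw [e1, card_insert_of_notMem e2]
      have e3 : D - ((E.filter (H.Adj v)).card + 1) = D - (E.filter (H.Adj v)).card - 1 := by omega
      rw [e3]
      by_contra hcon
      apply hxB
      rw [mem_biUnion]
      refine ⟨v, ?_, ?_⟩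
      · rw [hNw, mem_filter, mem_filter]; exact ⟨⟨mem_univ _, hadj.symm⟩, hvE⟩
      · rw [hBd, mem_filter]; exact ⟨hxC.1, hcon⟩
    · rw [hist_update_not hwE hadj]
      have e1 : (insert w E).filter (H.Adj v) = E.filter (H.Adj v) := by
        rw [filter_insert, if_neg hadj]
      rw [e1]
      exact hS.good v hvE
  · intro v hvW hv j hj1 hj2 hj3
    rw [mem_insert, not_or] at hv
    obtain ⟨hvw, hvE⟩ := hv
    rcases hRec v hvW hvE j hj1 hj2 hj3 with h1 | ⟨u, hu, hvu, hτ⟩
    · left
      by_cases hadj : H.Adj v w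
      · rw [hist_update_adj hwE hadj]
        unfold BadAt at h1 ⊢
        rw [cnd_insert col B c j t x _ (by omega)]
        exact h1
      · rw [hist_update_not hwE hadj]; exact h1
    · right
      exact ⟨u, mem_insert_of_mem hu, hvu, by rw [hupτ u hu]; exact hτ⟩

theorem embed_levels {X : Type*} [Fintype X] [Nonempty α] (H : SimpleGraph X)
    (col : α → α → Fin k) (hsymm : ∀ a b, col a b = col b a)
    (B : ℕ → Finset α) (cs : ℕ → Fin k) (M P b R D : ℕ) (hDM : 0 < M) (hR : R = 4 * (D + 1) * M)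
    (hdeg : ∀ x, (univ.filter (H.Adj x)).card ≤ D) (c : Fin k) (W : Finset X)
    (hgood : GoodH col B cs M P b R c D ∅)
    (hbig : ∀ j < P, 2 * M * Fintype.card X ≤ (B j).card) (t : ℕ) (htP : t ≤ P) :
    ∃ (E : Finset X) (φ : X → α) (τ : X → ℕ), St H col B cs M P b R D c W t E φ τ ∧
      Rec H col B cs M P c W t E φ τ := by
  obtain ⟨a0⟩ := ‹Nonempty α›
  have main : ∀ s, s ≤ P → ∃ (E : Finset X) (φ : X → α) (τ : X → ℕ),
      St H col B cs M P b R D c W (P - s) E φ τ ∧ Rec H col B cs M P c W (P - s) E φ τ := by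
    intro s
    induction s with
    | zero =>
      intro _
      refine ⟨∅, fun _ => a0, fun _ => 0, ⟨empty_subset _, by simp, by simp, by simp, ?_⟩, ?_⟩
      · intro w _
        have h1 : hist H (∅ : Finset X) (fun _ => a0) (fun _ => 0) w = ∅ := by
          unfold hist; simp
        rw [h1, filter_empty, card_empty, Nat.sub_zero]
        exact hgood
      · intro w _ _ j h1 h2 _; omega
    | succ s ih =>
      intro hs
      obtain ⟨E0, φ0, τ0, hS0, hR0⟩ := ih (by omega)
      obtain ⟨u, hu⟩ : ∃ u, u = P - (s + 1) := ⟨_, rfl⟩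
      have hu1 : P - s = u + 1 := by omega
      rw [hu1] at hS0 hR0
      rw [← hu]
      have hS0' : St H col B cs M P b R D c W u E0 φ0 τ0 := by
        refine ⟨hS0.sub, ?_, hS0.inj, hS0.adj, hS0.good⟩
        intro v hv
        have := hS0.lev v hv
        exact ⟨by omega, this.2⟩
      by_cases hcu : cs u = c
      swap
      · refine ⟨E0, φ0, τ0, hS0', ?_⟩
        intro w hw hwE j h1 h2 h3
        rcases h1.eq_or_lt with h4 | h4
        · subst h4; exact absurd h3 hcu
        · exact hR0 w hw hwE j h4 h2 h3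
      -- a maximal state
      obtain ⟨n, hn⟩ : ∃ n, n = (fun n : ℕ => ∃ (E : Finset X) (φ : X → α) (τ : X → ℕ),
        St H col B cs M P b R D c W u E φ τ ∧ Rec H col B cs M P c W (u + 1) E φ τ ∧
        E.card = n) := ⟨_, rfl⟩
      have hex : ∃ m, n m := by rw [hn]; exact ⟨E0.card, E0, φ0, τ0, hS0', hR0, rfl⟩
      have hbd : ∀ m, n m → m ≤ Fintype.card X := by
        intro m hm
        rw [hn] at hm
        obtain ⟨E, φ, τ, _, _, hE⟩ := hm
        rw [← hE]; exact card_le_univ _
      obtain ⟨m, hm, hmax⟩ : ∃ m, n m ∧ ∀ m', n m' → m' ≤ m := by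
        refine ⟨Nat.findGreatest n (Fintype.card X), ?_, ?_⟩
        · obtain ⟨m0, hm0⟩ := hex
          exact Nat.findGreatest_spec (hbd m0 hm0) hm0
        · intro m' hm'
          exact Nat.le_findGreatest (hbd m' hm') hm'
      rw [hn] at hm
      obtain ⟨E, φ, τ, hS, hRc, hE⟩ := hm
      refine ⟨E, φ, τ, hS, ?_⟩
      intro w hw hwE j h1 h2 h3
      rcases h1.eq_or_lt with h4 | h4
      swap
      · exact hRc w hw hwE j h4 h2 h3
      subst h4
      by_contra hcon
      rw [not_or] at hcon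
      obtain ⟨hc1, hc2⟩ := hcon
      push Not at hc2
      obtain ⟨x, hS', hR'⟩ := extend H col hsymm B cs M P b R D hDM hR hdeg c W u E φ τ hS hRc h2
        h3 (hbig u h2) w hw hwE hc1 hc2
      have h5 := hmax (m + 1) (by
        rw [hn]
        refine ⟨_, _, _, hS', hR', ?_⟩
        rw [card_insert_of_notMem hwE, hE])
      omega
  have := main (P - t) (by omega)
  rwa [show P - (P - t) = t by omega] at this

/-- All vertices of `W` are embedded if there are enough levels. -/
theorem embed_all {X : Type*} [Fintype X] [Nonempty α] (H : SimpleGraph X)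
    (col : α → α → Fin k) (hsymm : ∀ a b, col a b = col b a)
    (B : ℕ → Finset α) (cs : ℕ → Fin k) (M P b R D : ℕ) (hDM : 0 < M) (hR : R = 4 * (D + 1) * M)
    (hdeg : ∀ x, (univ.filter (H.Adj x)).card ≤ D) (c : Fin k) (W : Finset X)
    (hgood : GoodH col B cs M P b R c D ∅)
    (hbig : ∀ j < P, 2 * M * Fintype.card X ≤ (B j).card) (t : ℕ) (htP : t ≤ P)
    (hT : b + D ≤ ((Ico t P).filter (fun j => cs j = c)).card) :
    ∃ (φ : X → α) (τ : X → ℕ), (∀ v ∈ W, t ≤ τ v ∧ τ v < P ∧ φ v ∈ B (τ v)) ∧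
      Set.InjOn φ W ∧ (∀ u ∈ W, ∀ v ∈ W, H.Adj u v → col (φ u) (φ v) = c) ∧
      ∀ w, w ∉ W → ¬ Bad col B cs M P b c (hist H W φ τ w) := by
  obtain ⟨E, φ, τ, hS, hRc⟩ := embed_levels H col hsymm B cs M P b R D hDM hR hdeg c W hgood hbig
    t htP
  have hEW : E = W := by
    apply Subset.antisymm hS.sub
    intro w hw
    by_contra hwE
    have h1 := hRc w hw hwE
    have h2 := GoodH.zero_of _ _ (hS.good w hwE)
    unfold Bad at h2
    rw [not_le] at h2
    have h3 : (Ico t P).filter (fun j => cs j = c) ⊆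
        (range P).filter (fun j => BadAt col B cs M c j (hist H E φ τ w)) ∪
        (E.filter (H.Adj w)).image τ := by
      intro j hj
      rw [mem_filter, mem_Ico] at hj
      rw [mem_union, mem_filter, mem_range, mem_image]
      rcases h1 j hj.1.1 hj.1.2 hj.2 with h4 | ⟨u, hu, hwu, hτ⟩
      · left; exact ⟨hj.1.2, h4⟩
      · right; exact ⟨u, mem_filter.mpr ⟨hu, hwu⟩, hτ⟩
    have h4 := (card_le_card h3).trans (card_union_le _ _)
    have h5 : ((E.filter (H.Adj w)).image τ).card ≤ D := by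
      refine card_image_le.trans ((card_le_card ?_).trans (hdeg w))
      intro u hu
      rw [mem_filter] at hu ⊢
      exact ⟨mem_univ _, hu.2⟩
    omega
  subst hEW
  refine ⟨φ, τ, hS.lev, hS.inj, fun u hu v hv huv => (hS.adj u hu v hv huv).2, ?_⟩
  intro w hw
  exact GoodH.zero_of _ _ (hS.good w hw)

end Pool.Agent.H15.RR
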