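import Pool.Agent.H15.RR.GoodH

/-! Existence of a chain for which the empty history is hereditarily good. -/

namespace Pool.Agent.H15.RR

open Finset Classical

variable {α : Type*} {k : ℕ}

lemma chain_card {k : ℕ} {α : Type*} [Fintype α] (B : ℕ → Finset α) (P : ℕ) (h0 : B 0 = univ)
    (hcard : ∀ j < P, (B j).card ≤ k * (B (j + 1)).card) (hk : 0 < k) :
    ∀ j ≤ P, Fintype.card α ≤ k ^ P * (B j).card := by
  have h1 : ∀ j ≤ P, Fintype.card α ≤ k ^ j * (B j).card := by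
    intro j
    induction j with
    | zero => intro _; rw [h0, pow_zero, one_mul, card_univ]
    | succ j ih =>
      intro hj
      refine (ih (by omega)).trans ?_
      rw [pow_succ, mul_assoc]
      exact Nat.mul_le_mul_left _ (hcard j (by omega))
  intro j hj
  refine (h1 j hj).trans ?_
  exact Nat.mul_le_mul_right _ (Nat.pow_le_pow_right hk hj)

theorem good_chain [Fintype α] [Nonempty α] (col : α → α → Fin k)
    (hsymm : ∀ a b, col a b = col b a) (hk : 0 < k) (P M R D b : ℕ) (hP : 0 < P) (hR : 0 < R)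
    (hM : 0 < M)
    (hcond : 2 ^ P * (k * (D + 1)) * (P * R * k ^ P) ^ D < M ^ b) :
    ∃ (B : ℕ → Finset α) (cs : ℕ → Fin k), B 0 = univ ∧ (∀ j < P, B (j + 1) ⊆ B j) ∧
      (∀ j ≤ P, Fintype.card α ≤ k ^ P * (B j).card) ∧
      ∀ c, GoodH col B cs M P b R c D ∅ := by
  obtain ⟨N, hN⟩ : ∃ N : ℕ, N = Fintype.card α := ⟨_, rfl⟩
  have hNpos : 0 < N := by rw [hN]; exact Fintype.card_pos
  have hNR : (0:ℝ) < N := by exact_mod_cast hNpos
  have hkR : (1:ℝ) ≤ k := by exact_mod_cast hk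
  have hRR : (1:ℝ) ≤ R := by exact_mod_cast hR
  have hPR : (1:ℝ) ≤ P := by exact_mod_cast hP
  obtain ⟨κ, hκ⟩ : ∃ κ : ℝ, κ = R * (k:ℝ) ^ P / N := ⟨_, rfl⟩
  have hκ0 : 0 < κ := by rw [hκ]; positivity
  -- the family of tests
  let ι := Fin k × (Σ r : Fin (D + 1), (Fin r → Fin P × α))
  obtain ⟨B, cs, hB0, hnest, hcard, hsum⟩ := chain_lemma col hsymm hk M (univ : Finset ι)
    (fun i => i.1) (fun i => hst i.2.2) P 0 univ univ_nonempty (fun i => κ ^ (i.2.1 : ℕ))
    (fun i _ => pow_nonneg hκ0.le _) (by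
      intro i _ p hp
      unfold hst at hp
      rw [mem_image] at hp
      obtain ⟨x, _, rfl⟩ := hp
      simp)
  have hcard' := chain_card B P hB0 (fun j hj => hcard j (Nat.zero_le _) (by omega)) hk
  refine ⟨B, cs, hB0, fun j hj => hnest j (Nat.zero_le _) (by omega), hcard', ?_⟩
  intro c
  by_contra hcon
  have h1 := good_of_sum col B cs M P b R c κ hκ0.le (by
    intro j hj
    have h2 : (N:ℝ) ≤ k ^ P * (B j).card := by rw [hN]; exact_mod_cast hcard' j hj.le
    rw [hκ, div_mul_eq_mul_div, le_div_iff₀ hNR, mul_assoc]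
    exact mul_le_mul_of_nonneg_left h2 (by linarith)) D ∅ hcon
  -- compare with the sum over all tests
  have h2 : (M:ℝ) ^ b * ∑ r ∈ range (D + 1), ∑ p : Fin r → Fin P × α,
      κ ^ r * (if (∀ q ∈ hst p, q.2 ∈ B q.1) ∧ Bad col B cs M P b c (∅ ∪ hst p) then (1:ℝ) else 0) ≤
      ∑ i : ι, κ ^ (i.2.1 : ℕ) * (if ∀ p ∈ hst i.2.2, 0 ≤ p.1 → p.2 ∈ B p.1 then
        (M : ℝ) ^ ((Ico 0 (0 + P)).filter (fun j => BadAt col B cs M i.1 j (hst i.2.2))).card
        else 0) := by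
    have h3 : ∑ i : ι, κ ^ (i.2.1 : ℕ) * (if ∀ p ∈ hst i.2.2, 0 ≤ p.1 → p.2 ∈ B p.1 then
        (M : ℝ) ^ ((Ico 0 (0 + P)).filter (fun j => BadAt col B cs M i.1 j (hst i.2.2))).card
        else 0) = ∑ c' : Fin k, ∑ r : Fin (D + 1), ∑ p : Fin r → Fin P × α, κ ^ (r : ℕ) *
        (if ∀ q ∈ hst p, 0 ≤ q.1 → q.2 ∈ B q.1 then
        (M : ℝ) ^ ((Ico 0 (0 + P)).filter (fun j => BadAt col B cs M c' j (hst p))).card
        else 0) := by
      rw [Fintype.sum_prod_type]
      apply sum_congr rfl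
      intro c' _
      rw [Fintype.sum_sigma]
    rw [h3]
    have hnn : ∀ (c' : Fin k) (r : Fin (D + 1)) (p : Fin r → Fin P × α), 0 ≤ κ ^ (r : ℕ) *
        (if ∀ q ∈ hst p, 0 ≤ q.1 → q.2 ∈ B q.1 then
        (M : ℝ) ^ ((Ico 0 (0 + P)).filter (fun j => BadAt col B cs M c' j (hst p))).card
        else 0) := by
      intro c' r p
      apply mul_nonneg (pow_nonneg hκ0.le _)
      split_ifs
      · positivity
      · exact le_rfl
    refine le_trans ?_ (single_le_sum (f := fun c' : Fin k => ∑ r : Fin (D + 1),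
      ∑ p : Fin r → Fin P × α, κ ^ (r : ℕ) *
        (if ∀ q ∈ hst p, 0 ≤ q.1 → q.2 ∈ B q.1 then
        (M : ℝ) ^ ((Ico 0 (0 + P)).filter (fun j => BadAt col B cs M c' j (hst p))).card
        else 0)) (fun c' _ => sum_nonneg fun r _ => sum_nonneg fun p _ => hnn c' r p)
        (mem_univ c))
    rw [mul_sum]
    rw [Fin.sum_univ_eq_sum_range (fun r => ∑ p : Fin r → Fin P × α, κ ^ r *
        (if ∀ q ∈ hst p, 0 ≤ q.1 → q.2 ∈ B q.1 then
        (M : ℝ) ^ ((Ico 0 (0 + P)).filter (fun j => BadAt col B cs M c j (hst p))).card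
        else 0)) (D + 1)]
    apply sum_le_sum
    intro r _
    rw [mul_sum]
    apply sum_le_sum
    intro p _
    rw [mul_left_comm]
    apply mul_le_mul_of_nonneg_left _ (pow_nonneg hκ0.le _)
    by_cases h4 : (∀ q ∈ hst p, q.2 ∈ B q.1) ∧ Bad col B cs M P b c (∅ ∪ hst p)
    · rw [if_pos h4, if_pos (fun q hq _ => h4.1 q hq), mul_one]
      have h5 := h4.2
      rw [empty_union] at h5
      unfold Bad at h5
      have hM1 : (1:ℝ) ≤ M := by exact_mod_cast hM
      apply pow_le_pow_right₀ hM1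
      rw [zero_add, ← range_eq_Ico]
      exact h5
    · rw [if_neg h4, mul_zero]
      split_ifs
      · positivity
      · exact le_rfl
  -- the total weight
  have h3 : ∑ i : ι, κ ^ (i.2.1 : ℕ) * (if ∀ p ∈ hst i.2.2, 0 ≤ p.1 → p.2 ∈ (univ : Finset α)
      then (1:ℝ) else 0) ≤ k * (D + 1) * (P * R * (k:ℝ) ^ P) ^ D := by
    have h4 : ∑ i : ι, κ ^ (i.2.1 : ℕ) * (if ∀ p ∈ hst i.2.2, 0 ≤ p.1 → p.2 ∈ (univ : Finset α)
        then (1:ℝ) else 0) = ∑ c' : Fin k, ∑ r : Fin (D + 1), ∑ p : Fin r → Fin P × α,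
        κ ^ (r : ℕ) := by
      rw [Fintype.sum_prod_type]
      apply sum_congr rfl
      intro c' _
      rw [Fintype.sum_sigma]
      apply sum_congr rfl
      intro r _
      apply sum_congr rfl
      intro p _
      rw [if_pos (fun q _ _ => mem_univ _), mul_one]
    rw [h4]
    have h5 : ∀ r : Fin (D + 1), ∑ p : Fin r → Fin P × α, κ ^ (r : ℕ) ≤
        (P * R * (k:ℝ) ^ P) ^ D := by
      intro r
      rw [sum_const, card_univ, Fintype.card_fun, Fintype.card_fin, Fintype.card_prod,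
        Fintype.card_fin, ← hN, nsmul_eq_mul, Nat.cast_pow, ← mul_pow]
      have h6 : ((P * N : ℕ) : ℝ) * κ = P * R * (k:ℝ) ^ P := by
        rw [hκ]; push_cast; field_simp
      rw [h6]
      apply pow_le_pow_right₀
      · have : (1:ℝ) ≤ (k:ℝ) ^ P := one_le_pow₀ hkR
        have h7 : (1:ℝ) ≤ P * R := by nlinarith
        nlinarith
      · have := r.2; omega
    calc ∑ c' : Fin k, ∑ r : Fin (D + 1), ∑ p : Fin r → Fin P × α, κ ^ (r : ℕ) ≤
          ∑ c' : Fin k, ∑ r : Fin (D + 1), (P * R * (k:ℝ) ^ P) ^ D :=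
          sum_le_sum fun c' _ => sum_le_sum fun r _ => h5 r
      _ = k * (D + 1) * (P * R * (k:ℝ) ^ P) ^ D := by
          rw [sum_const, sum_const, card_univ, card_univ, Fintype.card_fin, Fintype.card_fin,
            nsmul_eq_mul, nsmul_eq_mul]
          push_cast; ring
  have h4 : (M:ℝ) ^ b * 1 ≤ 2 ^ P * (k * (D + 1) * (P * R * (k:ℝ) ^ P) ^ D) := by
    refine (mul_le_mul_of_nonneg_left h1 (by positivity)).trans (h2.trans (hsum.trans ?_))
    exact mul_le_mul_of_nonneg_left h3 (by positivity)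
  have h5 : ((2 ^ P * (k * (D + 1)) * (P * R * k ^ P) ^ D : ℕ) : ℝ) < ((M ^ b : ℕ) : ℝ) := by
    exact_mod_cast hcond
  push_cast at h5
  rw [mul_one, ← mul_assoc] at h4
  linarith

end Pool.Agent.H15.RR
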