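import Pool.Agent.H15.RR.Chain

/-! Good histories. -/

namespace Pool.Agent.H15.RR

open Finset Classical

variable {α : Type*} {k : ℕ}

/-- A history is bad if it has at least `b` bad levels. -/
def Bad (col : α → α → Fin k) (B : ℕ → Finset α) (cs : ℕ → Fin k) (M P b : ℕ) (c : Fin k)
    (h : Finset (ℕ × α)) : Prop :=
  b ≤ ((range P).filter (fun j => BadAt col B cs M c j h)).card

/-- Hereditarily good histories. -/
def GoodH (col : α → α → Fin k) (B : ℕ → Finset α) (cs : ℕ → Fin k) (M P b R : ℕ) (c : Fin k) :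
    ℕ → Finset (ℕ × α) → Prop
  | 0, h => ¬ Bad col B cs M P b c h
  | s + 1, h => GoodH col B cs M P b R c s h ∧ ∀ j < P, cs j = c →
      R * ((B j).filter (fun x => ¬ GoodH col B cs M P b R c s (insert (j, x) h))).card ≤ (B j).card

lemma GoodH.zero_of {col : α → α → Fin k} {B : ℕ → Finset α} {cs : ℕ → Fin k} {M P b R : ℕ}
    {c : Fin k} (s : ℕ) (h : Finset (ℕ × α)) (hg : GoodH col B cs M P b R c s h) :
    ¬ Bad col B cs M P b c h := by
  induction s with
  | zero => exact hg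
  | succ s ih => exact ih hg.1

/-- The history of a sequence of pairs. -/
noncomputable def hst {P : ℕ} {r : ℕ} (p : Fin r → Fin P × α) : Finset (ℕ × α) :=
  univ.image (fun i => (((p i).1 : ℕ), (p i).2))

lemma hst_cons {P : ℕ} {r : ℕ} (a : Fin P × α) (p : Fin r → Fin P × α) :
    hst (Fin.cons a p : Fin (r + 1) → Fin P × α) = insert ((a.1 : ℕ), a.2) (hst p) := by
  unfold hst
  ext x
  rw [mem_image, mem_insert, mem_image]
  constructor
  · rintro ⟨i, _, rfl⟩
    refine Fin.cases ?_ (fun i => ?_) i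
    · left; simp
    · right; exact ⟨i, mem_univ _, by simp⟩
  · rintro (rfl | ⟨i, _, rfl⟩)
    · exact ⟨0, mem_univ _, by simp⟩
    · exact ⟨i.succ, mem_univ _, by simp⟩

lemma sum_cons {γ : Type*} [Fintype γ] (r : ℕ) (g : (Fin (r + 1) → γ) → ℝ) :
    ∑ p : Fin (r + 1) → γ, g p = ∑ a : γ, ∑ p : Fin r → γ, g (Fin.cons a p) := by
  rw [← (Fin.consEquiv (fun _ : Fin (r + 1) => γ)).sum_comp g, Fintype.sum_prod_type]
  rfl

theorem good_of_sum [Fintype α] (col : α → α → Fin k) (B : ℕ → Finset α) (cs : ℕ → Fin k)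
    (M P b R : ℕ) (c : Fin k) (κ : ℝ) (hκ0 : 0 ≤ κ)
    (hκ : ∀ j < P, (R : ℝ) ≤ κ * (B j).card) (s : ℕ) :
    ∀ h : Finset (ℕ × α), ¬ GoodH col B cs M P b R c s h →
    1 ≤ ∑ r ∈ range (s + 1), ∑ p : Fin r → Fin P × α,
      κ ^ r * (if (∀ q ∈ hst p, q.2 ∈ B q.1) ∧ Bad col B cs M P b c (h ∪ hst p) then 1 else 0) := by
  have hnn : ∀ (h : Finset (ℕ × α)) (r : ℕ) (p : Fin r → Fin P × α), 0 ≤ κ ^ r *
      (if (∀ q ∈ hst p, q.2 ∈ B q.1) ∧ Bad col B cs M P b c (h ∪ hst p) then (1:ℝ) else 0) := by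
    intro h r p
    apply mul_nonneg (pow_nonneg hκ0 _)
    split_ifs <;> norm_num
  induction s with
  | zero =>
    intro h hg
    rw [GoodH, not_not] at hg
    rw [zero_add, sum_range_one]
    have h1 : ∀ p : Fin 0 → Fin P × α, κ ^ 0 *
        (if (∀ q ∈ hst p, q.2 ∈ B q.1) ∧ Bad col B cs M P b c (h ∪ hst p) then (1:ℝ) else 0) = 1 := by
      intro p
      have h2 : hst p = ∅ := by unfold hst; simp
      rw [h2, union_empty, if_pos ⟨by simp, hg⟩]; norm_num
    rw [sum_congr rfl fun p _ => h1 p]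
    simp
  | succ s ih =>
    intro h hg
    rw [GoodH, not_and_or] at hg
    by_cases hg0 : GoodH col B cs M P b R c s h
    swap
    · refine (ih h hg0).trans ?_
      apply sum_le_sum_of_subset_of_nonneg
      · exact range_mono (by omega)
      · intro r _ _
        exact sum_nonneg fun p _ => hnn h r p
    have hg1 := hg.resolve_left (not_not.mpr hg0)
    push Not at hg1
    obtain ⟨j, hjP, hcj, hj⟩ := hg1
    obtain ⟨X, hX⟩ : ∃ X, X = (B j).filter
      (fun x => ¬ GoodH col B cs M P b R c s (insert (j, x) h)) := ⟨_, rfl⟩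
    rw [← hX] at hj
    have hRκ : 1 ≤ κ * X.card := by
      have h1 := hκ j hjP
      have h2 : ((B j).card : ℝ) < R * X.card := by exact_mod_cast hj
      have hB0 : (0:ℝ) ≤ (B j).card := Nat.cast_nonneg _
      have hR : 0 < R := by
        rcases Nat.eq_zero_or_pos R with h0 | h0
        · rw [h0, zero_mul] at hj; omega
        · exact h0
      have hRR : (0:ℝ) < R := by exact_mod_cast hR
      have h3 : (R:ℝ) ≤ κ * (R * X.card) := h1.trans (mul_le_mul_of_nonneg_left h2.le hκ0)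
      have h4 : (R:ℝ) * 1 ≤ R * (κ * X.card) := by
        rw [mul_one]; linarith
      exact le_of_mul_le_mul_left h4 hRR
    -- sum over X
    have h1 : (X.card : ℝ) ≤ ∑ x ∈ X, ∑ r ∈ range (s + 1), ∑ p : Fin r → Fin P × α,
        κ ^ r * (if (∀ q ∈ hst p, q.2 ∈ B q.1) ∧
          Bad col B cs M P b c (insert (j, x) h ∪ hst p) then 1 else 0) := by
      rw [card_eq_sum_ones, Nat.cast_sum]
      apply sum_le_sum
      intro x hx
      rw [hX, mem_filter] at hx
      rw [Nat.cast_one]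
      exact ih _ hx.2
    have h2 : κ * (X.card : ℝ) ≤ ∑ r ∈ range (s + 1), ∑ p : Fin (r + 1) → Fin P × α,
        κ ^ (r + 1) * (if (∀ q ∈ hst p, q.2 ∈ B q.1) ∧
          Bad col B cs M P b c (h ∪ hst p) then 1 else 0) := by
      refine (mul_le_mul_of_nonneg_left h1 hκ0).trans ?_
      rw [sum_comm, mul_sum]
      apply sum_le_sum
      intro r _
      rw [sum_cons, mul_sum]
      have h3 : ∑ a : Fin P × α, ∑ p : Fin r → Fin P × α, κ ^ (r + 1) *
          (if (∀ q ∈ hst (Fin.cons a p : Fin (r + 1) → Fin P × α), q.2 ∈ B q.1) ∧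
          Bad col B cs M P b c (h ∪ hst (Fin.cons a p : Fin (r + 1) → Fin P × α)) then (1:ℝ) else 0) =
          ∑ i : Fin P, ∑ x : α, ∑ p : Fin r → Fin P × α, κ ^ (r + 1) *
          (if (∀ q ∈ hst (Fin.cons (i, x) p : Fin (r + 1) → Fin P × α), q.2 ∈ B q.1) ∧
          Bad col B cs M P b c (h ∪ hst (Fin.cons (i, x) p : Fin (r + 1) → Fin P × α)) then 1 else 0) :=
        Fintype.sum_prod_type _
      rw [h3]
      have h4 : ∑ x : α, ∑ p : Fin r → Fin P × α, κ ^ (r + 1) *
          (if (∀ q ∈ hst (Fin.cons ((⟨j, hjP⟩ : Fin P), x) p : Fin (r + 1) → Fin P × α), q.2 ∈ B q.1) ∧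
          Bad col B cs M P b c (h ∪ hst (Fin.cons ((⟨j, hjP⟩ : Fin P), x) p :
            Fin (r + 1) → Fin P × α)) then (1:ℝ) else 0) ≤
          ∑ i : Fin P, ∑ x : α, ∑ p : Fin r → Fin P × α, κ ^ (r + 1) *
          (if (∀ q ∈ hst (Fin.cons (i, x) p : Fin (r + 1) → Fin P × α), q.2 ∈ B q.1) ∧
          Bad col B cs M P b c (h ∪ hst (Fin.cons (i, x) p : Fin (r + 1) → Fin P × α)) then 1 else 0) :=
        single_le_sum (f := fun i : Fin P => ∑ x : α, ∑ p : Fin r → Fin P × α, κ ^ (r + 1) *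
          (if (∀ q ∈ hst (Fin.cons (i, x) p : Fin (r + 1) → Fin P × α), q.2 ∈ B q.1) ∧
          Bad col B cs M P b c (h ∪ hst (Fin.cons (i, x) p : Fin (r + 1) → Fin P × α))
          then (1:ℝ) else 0))
          (fun i _ => sum_nonneg fun x _ => sum_nonneg fun p _ => hnn h (r + 1) _) (mem_univ _)
      refine le_trans ?_ h4
      have h5 : ∑ x ∈ X, ∑ p : Fin r → Fin P × α, κ ^ (r + 1) *
          (if (∀ q ∈ hst (Fin.cons ((⟨j, hjP⟩ : Fin P), x) p : Fin (r + 1) → Fin P × α), q.2 ∈ B q.1) ∧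
          Bad col B cs M P b c (h ∪ hst (Fin.cons ((⟨j, hjP⟩ : Fin P), x) p :
            Fin (r + 1) → Fin P × α)) then (1:ℝ) else 0) ≤
          ∑ x : α, ∑ p : Fin r → Fin P × α, κ ^ (r + 1) *
          (if (∀ q ∈ hst (Fin.cons ((⟨j, hjP⟩ : Fin P), x) p : Fin (r + 1) → Fin P × α), q.2 ∈ B q.1) ∧
          Bad col B cs M P b c (h ∪ hst (Fin.cons ((⟨j, hjP⟩ : Fin P), x) p :
            Fin (r + 1) → Fin P × α)) then 1 else 0) :=
        sum_le_sum_of_subset_of_nonneg (subset_univ _)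
          (fun x _ _ => sum_nonneg fun p _ => hnn h (r + 1) _)
      refine le_trans ?_ h5
      apply sum_le_sum
      intro x hx
      rw [mul_sum]
      apply sum_le_sum
      intro p _
      rw [hst_cons, pow_succ, ← mul_assoc, mul_comm κ (κ ^ r)]
      apply mul_le_mul_of_nonneg_left _ (mul_nonneg (pow_nonneg hκ0 _) hκ0)
      have h6 : insert (j, x) h ∪ hst p = h ∪ insert (j, x) (hst p) := by
        ext y; simp only [mem_union, mem_insert]; tauto
      by_cases h7 : (∀ q ∈ hst p, q.2 ∈ B q.1) ∧ Bad col B cs M P b c (insert (j, x) h ∪ hst p)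
      · rw [if_pos h7, if_pos]
        refine ⟨?_, ?_⟩
        · intro q hq
          rw [mem_insert] at hq
          rcases hq with rfl | hq
          · rw [hX, mem_filter] at hx; exact hx.1
          · exact h7.1 q hq
        · simp only
          rw [← h6]; exact h7.2
      · rw [if_neg h7]; split_ifs <;> norm_num
    refine hRκ.trans (h2.trans ?_)
    rw [sum_range_succ' (fun r => ∑ p : Fin r → Fin P × α,
      κ ^ r * (if (∀ q ∈ hst p, q.2 ∈ B q.1) ∧ Bad col B cs M P b c (h ∪ hst p)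
        then (1:ℝ) else 0)) (s + 1)]
    have h8 : 0 ≤ ∑ p : Fin 0 → Fin P × α, κ ^ 0 *
      (if (∀ q ∈ hst p, q.2 ∈ B q.1) ∧ Bad col B cs M P b c (h ∪ hst p) then (1:ℝ) else 0) :=
      sum_nonneg fun p _ => hnn h 0 p
    linarith

end Pool.Agent.H15.RR
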