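import Mathlib

/-! A small hitting family (greedy argument).

PROOF. Let `JJ` be the family of all `J` in `I` with `β * card I` at most `card J`; it has at most
`2 ^ card I` members. CLAIM (induction on `M`): for every subfamily `FF` of `JJ` there is `QQ` in
`CC`, `card QQ` at most `M`, such that the number of the `J` in `FF` which contain no member of
`QQ` is at most `(1 - q) ^ M * card FF`. Step: double counting of the pairs `(Q, J)` with `Q` in
`CC`, `J` in the not yet hit part `GG`, `Q` contained in `J`: at least `q * card CC * card GG`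
pairs, so some `Q` in `CC` is contained in at least `q * card GG` of them (`CC` is nonempty); add it.
Finally `(1 - q) ^ M` is at most `exp (- q * M)`, less than `exp (- card I)`, which is at most
`(1/2) ^ card I`; so the number of missed `J` is less than `1`, hence `0`. -/

namespace Pool.Agent.H15.RR

open Finset Classical

private theorem hit_step {ι : Type*} (CC : Finset (Finset ι)) (q : ℝ) (hq1 : q ≤ 1) (hCC : CC.Nonempty)
    (FF : Finset (Finset ι)) (h : ∀ J ∈ FF, q * CC.card ≤ ((CC.filter (fun Q => Q ⊆ J)).card : ℝ)) (M : ℕ) :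
    ∃ QQ ⊆ CC, QQ.card ≤ M ∧
      ((FF.filter (fun J => ∀ Q ∈ QQ, ¬ Q ⊆ J)).card : ℝ) ≤ (1 - q) ^ M * FF.card := by
  induction M with
  | zero =>
    refine ⟨∅, empty_subset _, by simp, ?_⟩
    rw [pow_zero, one_mul]
    exact_mod_cast card_filter_le _ _
  | succ M ih =>
    obtain ⟨QQ, hQ1, hQ2, hQ3⟩ := ih
    obtain ⟨GG, hGG⟩ : ∃ GG, GG = FF.filter (fun J => ∀ Q ∈ QQ, ¬ Q ⊆ J) := ⟨_, rfl⟩
    rw [← hGG] at hQ3
    have hGF : ∀ J ∈ GG, J ∈ FF := fun J hJ => by
      rw [hGG] at hJ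
      exact (mem_filter.1 hJ).1
    have hdc : ∑ Q ∈ CC, ((GG.filter (fun J => Q ⊆ J)).card : ℝ) =
        ∑ J ∈ GG, ((CC.filter (fun Q => Q ⊆ J)).card : ℝ) := by
      simp only [card_filter, Nat.cast_sum]
      rw [sum_comm]
    have hlow : ∑ _Q ∈ CC, q * GG.card ≤ ∑ Q ∈ CC, ((GG.filter (fun J => Q ⊆ J)).card : ℝ) := by
      rw [hdc, sum_const, nsmul_eq_mul]
      calc (CC.card : ℝ) * (q * GG.card) = ∑ _J ∈ GG, q * CC.card := by
            rw [sum_const, nsmul_eq_mul]
            ring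
        _ ≤ _ := sum_le_sum fun J hJ => h J (hGF J hJ)
    obtain ⟨Q, hQC, hQ⟩ := exists_le_of_sum_le hCC hlow
    refine ⟨insert Q QQ, insert_subset hQC hQ1, (card_insert_le _ _).trans (by omega), ?_⟩
    have hsub : FF.filter (fun J => ∀ Q' ∈ insert Q QQ, ¬ Q' ⊆ J) = GG.filter (fun J => ¬ Q ⊆ J) := by
      rw [hGG, filter_filter]
      refine filter_congr fun J _ => ?_
      constructor
      · intro h1
        exact ⟨fun Q' hQ' => h1 Q' (mem_insert_of_mem hQ'), h1 Q (mem_insert_self _ _)⟩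
      · rintro ⟨h1, h2⟩ Q' hQ'
        rcases mem_insert.1 hQ' with rfl | h3
        · exact h2
        · exact h1 Q' h3
    rw [hsub]
    have hcard := card_filter_add_card_filter_not (s := GG) (fun J => Q ⊆ J)
    have hcard' : ((GG.filter (fun J => Q ⊆ J)).card : ℝ) + ((GG.filter (fun J => ¬ Q ⊆ J)).card : ℝ) =
        GG.card := by exact_mod_cast hcard
    have h1 : ((GG.filter (fun J => ¬ Q ⊆ J)).card : ℝ) ≤ (1 - q) * GG.card := by linarith
    refine h1.trans ?_
    rw [pow_succ', mul_assoc]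
    exact mul_le_mul_of_nonneg_left hQ3 (by linarith)

theorem hitting {ι : Type*} (I : Finset ι) (CC : Finset (Finset ι)) (β q : ℝ) (hq : 0 < q)
    (hq1 : q ≤ 1) (hCC : CC.Nonempty)
    (h : ∀ J ⊆ I, β * I.card ≤ J.card → q * CC.card ≤ ((CC.filter (fun Q => Q ⊆ J)).card : ℝ))
    (M : ℕ) (hM : (I.card : ℝ) < q * M) :
    ∃ QQ ⊆ CC, QQ.card ≤ M ∧ ∀ J ⊆ I, β * I.card ≤ J.card → ∃ Q ∈ QQ, Q ⊆ J := by
  obtain ⟨FF, hFF⟩ : ∃ FF, FF = I.powerset.filter (fun J => β * I.card ≤ J.card) := ⟨_, rfl⟩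
  obtain ⟨QQ, h1, h2, h3⟩ := hit_step CC q hq1 hCC FF (fun J hJ => by
    rw [hFF, mem_filter, mem_powerset] at hJ
    exact h J hJ.1 hJ.2) M
  refine ⟨QQ, h1, h2, fun J hJ hJ' => ?_⟩
  by_contra hcon
  push Not at hcon
  have hmem : J ∈ FF.filter (fun J => ∀ Q ∈ QQ, ¬ Q ⊆ J) := by
    rw [mem_filter, hFF, mem_filter, mem_powerset]
    exact ⟨⟨hJ, hJ'⟩, hcon⟩
  have h4 : (1 : ℝ) ≤ ((FF.filter (fun J => ∀ Q ∈ QQ, ¬ Q ⊆ J)).card : ℝ) := by
    exact_mod_cast card_pos.2 ⟨J, hmem⟩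
  have h5 : (FF.card : ℝ) ≤ 2 ^ I.card := by
    rw [hFF]
    have : (I.powerset.filter (fun J => β * I.card ≤ J.card)).card ≤ 2 ^ I.card :=
      (card_filter_le _ _).trans (card_powerset I).le
    exact_mod_cast this
  have h6 : (1 - q) ^ M ≤ Real.exp (-(q * M)) := by
    have h7 : 1 - q ≤ Real.exp (-q) := by
      have := Real.add_one_le_exp (-q)
      linarith
    calc (1 - q) ^ M ≤ Real.exp (-q) ^ M := pow_le_pow_left₀ (by linarith) h7 M
      _ = Real.exp (-(q * M)) := by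
          rw [← Real.exp_nat_mul]
          congr 1
          ring
  have h7 : Real.exp (-(q * M)) < Real.exp (-(I.card : ℝ)) := Real.exp_lt_exp.2 (by linarith)
  have h8 : (2 : ℝ) ^ I.card ≤ Real.exp (I.card : ℝ) := by
    have h9 : (2 : ℝ) ≤ Real.exp 1 := by
      have := Real.add_one_le_exp (1 : ℝ)
      linarith
    calc (2 : ℝ) ^ I.card ≤ Real.exp 1 ^ I.card := pow_le_pow_left₀ (by norm_num) h9 _
      _ = Real.exp (I.card : ℝ) := by
          rw [← Real.exp_nat_mul]
          congr 1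
          ring
  have h9 : (1 - q) ^ M * FF.card < 1 := by
    have h10 : 0 ≤ (1 - q) ^ M := pow_nonneg (by linarith) M
    have h11 : (1 - q) ^ M * FF.card ≤ (1 - q) ^ M * Real.exp (I.card : ℝ) :=
      mul_le_mul_of_nonneg_left (h5.trans h8) h10
    have h12 : (1 - q) ^ M * Real.exp (I.card : ℝ) < Real.exp (-(I.card : ℝ)) * Real.exp (I.card : ℝ) :=
      mul_lt_mul_of_pos_right (lt_of_le_of_lt h6 h7) (Real.exp_pos _)
    rw [← Real.exp_add, neg_add_cancel, Real.exp_zero] at h12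
    linarith
  linarith

end Pool.Agent.H15.RR
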