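import Pool.Agent.H15.RR.Embed
import Pool.Agent.H21.Tile.Defs

/-! Linear Ramsey numbers of bounded degree graphs, with constant `2 ^ O(D)`. -/

namespace Pool.Agent.H15.RR

open Finset Classical Pool.Agent.H21.Tile

/-- number of levels -/
def PR (k D : ℕ) : ℕ := k * (11 * D)

/-- inverse of the density of candidate sets -/
def MR (k D : ℕ) : ℕ := 2 * (2 ^ (11 * k) * (k * (D + 1)) * (4 * PR k D * (D + 1) * k ^ PR k D))

/-- the constant of the Ramsey theorem -/
def KR (k D : ℕ) : ℕ := 2 * MR k D * k ^ PR k D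

lemma PR_pos {k D : ℕ} (hk : 0 < k) (hD : 0 < D) : 0 < PR k D := by unfold PR; positivity

lemma MR_pos {k D : ℕ} (hk : 0 < k) (hD : 0 < D) : 0 < MR k D := by
  have := PR_pos hk hD
  unfold MR; positivity

lemma KR_pos {k D : ℕ} (hk : 0 < k) (hD : 0 < D) : 0 < KR k D := by
  have := MR_pos hk hD
  unfold KR; positivity

lemma cond_R {k D : ℕ} (hk : 0 < k) (hD : 0 < D) :
    2 ^ PR k D * (k * (D + 1)) * (PR k D * (4 * (D + 1) * MR k D) * k ^ PR k D) ^ D <
      MR k D ^ (2 * D) := by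
  have hM := MR_pos hk hD
  have hP := PR_pos hk hD
  obtain ⟨A, hA⟩ : ∃ A, A = 4 * PR k D * (D + 1) * k ^ PR k D := ⟨_, rfl⟩
  have hApos : 0 < A := by rw [hA]; positivity
  have hMA : MR k D = 2 * (2 ^ (11 * k) * (k * (D + 1)) * A) := by rw [hA]; rfl
  have e1 : PR k D * (4 * (D + 1) * MR k D) * k ^ PR k D = A * MR k D := by rw [hA]; ring
  rw [e1, mul_pow, two_mul D, pow_add, ← mul_assoc]
  apply Nat.mul_lt_mul_of_pos_right _ (by positivity)
  have e2 : MR k D ^ D = 2 ^ D * ((2 ^ (11 * k)) ^ D * (k * (D + 1)) ^ D * A ^ D) := by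
    rw [hMA, mul_pow, mul_pow, mul_pow]
  rw [e2]
  have e3 : 2 ^ PR k D = (2 ^ (11 * k)) ^ D := by
    rw [← pow_mul]; congr 1; unfold PR; ring
  rw [e3]
  have h1 : k * (D + 1) ≤ (k * (D + 1)) ^ D := Nat.le_self_pow (by omega) _
  have h2 : 2 ≤ 2 ^ D := Nat.le_self_pow (by omega) 2
  have h3 : 0 < (2 ^ (11 * k)) ^ D * (k * (D + 1)) ^ D * A ^ D := by positivity
  calc (2 ^ (11 * k)) ^ D * (k * (D + 1)) * A ^ D ≤
        (2 ^ (11 * k)) ^ D * (k * (D + 1)) ^ D * A ^ D := by gcongr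
    _ < 2 * ((2 ^ (11 * k)) ^ D * (k * (D + 1)) ^ D * A ^ D) := by omega
    _ ≤ _ := Nat.mul_le_mul_right _ h2

/-- The chain of levels, with a popular colour. -/
theorem chain_R {α : Type*} [Fintype α] [Nonempty α] {k D : ℕ} (hk : 0 < k) (hD : 0 < D)
    (col : α → α → Fin k) (hsymm : ∀ a b, col a b = col b a) :
    ∃ (B : ℕ → Finset α) (cs : ℕ → Fin k) (c : Fin k), B 0 = univ ∧
      (∀ j < PR k D, B (j + 1) ⊆ B j) ∧
      (∀ j ≤ PR k D, Fintype.card α ≤ k ^ PR k D * (B j).card) ∧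
      GoodH col B cs (MR k D) (PR k D) (2 * D) (4 * (D + 1) * MR k D) c D ∅ ∧
      11 * D ≤ ((range (PR k D)).filter (fun j => cs j = c)).card := by
  have hM := MR_pos hk hD
  obtain ⟨B, cs, h0, h1, h2, h3⟩ := good_chain col hsymm hk (PR k D) (MR k D)
    (4 * (D + 1) * MR k D) D (2 * D) (PR_pos hk hD) (by positivity) hM (cond_R hk hD)
  obtain ⟨c, hc⟩ : ∃ c, 11 * D ≤ ((range (PR k D)).filter (fun j => cs j = c)).card := by
    by_contra hcon
    push Not at hcon
    have h4 : (range (PR k D)).card = ∑ c : Fin k, ((range (PR k D)).filter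
      (fun j => cs j = c)).card := card_eq_sum_card_fiberwise (fun _ _ => mem_univ _)
    have : Nonempty (Fin k) := ⟨⟨0, hk⟩⟩
    have h5 : ∑ c : Fin k, ((range (PR k D)).filter (fun j => cs j = c)).card <
        ∑ c : Fin k, 11 * D := sum_lt_sum_of_nonempty univ_nonempty fun c _ => hcon c
    rw [← h4, card_range, sum_const, card_univ, Fintype.card_fin, smul_eq_mul] at h5
    unfold PR at h5
    exact lt_irrefl _ h5
  exact ⟨B, cs, c, h0, h1, h2, h3 c, hc⟩

/-- **Theorem R**: linear Ramsey numbers with constant `2 ^ O(D)`. -/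
theorem linRam_R {α : Type*} {k D : ℕ} (hk : 0 < k) (hD : 0 < D)
    (F : (r : ℕ) → SimpleGraph (Fin r)) (hdeg : ∀ r x, (univ.filter ((F r).Adj x)).card ≤ D)
    (col : α → α → Fin k) (hsymm : ∀ a b, col a b = col b a) : LinRam F col (KR k D) := by
  intro S b hb hS
  have hM := MR_pos hk hD
  have hSpos : 0 < S.card := lt_of_lt_of_le (Nat.mul_pos (KR_pos hk hD) hb) hS
  have : Nonempty S := by
    obtain ⟨x, hx⟩ := card_pos.mp hSpos
    exact ⟨⟨x, hx⟩⟩
  obtain ⟨B, cs, c, h0, h1, h2, h3, h4⟩ := chain_R (α := S) hk hD (fun a b => col a b)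
    (fun a b => hsymm a b)
  have hkP : 0 < k ^ PR k D := by positivity
  obtain ⟨φ, τ, hφ1, hφ2, hφ3, -⟩ := embed_all (F b) (fun a b : S => col a b)
    (fun a b => hsymm a b) B cs (MR k D) (PR k D) (2 * D) (4 * (D + 1) * MR k D) D hM rfl
    (hdeg b) c univ h3 (by
      intro j hj
      have h5 := h2 j hj.le
      rw [Fintype.card_coe] at h5
      rw [Fintype.card_fin]
      have h6 : k ^ PR k D * (2 * MR k D * b) ≤ k ^ PR k D * (B j).card := by
        calc k ^ PR k D * (2 * MR k D * b) = KR k D * b := by unfold KR; ring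
          _ ≤ S.card := hS
          _ ≤ _ := h5
      exact Nat.le_of_mul_le_mul_left h6 hkP) 0 (Nat.zero_le _) (by
      rw [← range_eq_Ico]; omega)
  have hinj : Function.Injective (fun x => (φ x : α)) := by
    intro x y hxy
    exact hφ2 (mem_coe.mpr (mem_univ x)) (mem_coe.mpr (mem_univ y)) (Subtype.ext hxy)
  refine ⟨univ.image (fun x => (φ x : α)), ?_, ?_, ?_⟩
  · intro y hy
    rw [mem_image] at hy
    obtain ⟨x, _, rfl⟩ := hy
    exact (φ x).2
  · rw [card_image_of_injective _ hinj, card_univ, Fintype.card_fin]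
  · exact ⟨c, b, fun x => (φ x : α), hinj, rfl, fun x y hxy =>
      hφ3 x (mem_univ _) y (mem_univ _) hxy⟩

end Pool.Agent.H15.RR
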