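import Pool.Agent.H21.Poly.Emb

/-! Embedding a bounded degree graph into parts which are pairwise bi-dense in one colour.

PROOF of `emb_parts`: copy the proof of `Pool.Agent.H21.Poly.emb_of_BD` (file
Pool/Agent/H21/Poly/Emb.lean) with the weight `w` replaced by `w (f x)` for the vertex `x`: the
invariant is `δ * ε ^ (number of embedded neighbours of x) * mass (w (f x))` at most the
`w (f x)`-weight of the candidate set of `x`. When `a` is embedded, for every not embedded
neighbour `x` of `a` the set `Bad x` of the `z` whose `c`-neighbours have less than `ε` of the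
`w (f x)`-weight of `Cand x` has `w (f a)`-weight at most `ρ * mass (w (f a))` (otherwise `BDP`
for the pair `f a, f x`, which are different because `f` is proper, applied to `Bad x` and
`Cand x` gives a contradiction, as in `BD.reg`). The vertices `z` are chosen in `Cand a` outside
`U`, the image of the embedded vertices and the bad sets; use `hw1` (weights at most one) for
`U` and the image. -/

namespace Pool.Agent.H15.RR

open Finset Classical Pool.Agent.H21.Poly

variable {α : Type*} [Fintype α] {k : ℕ}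

/-- bi-density of a pair of weights in the colour `c` -/
def BDP (col : α → α → Fin k) (c : Fin k) (w w' : α → ℝ) (ρ ε : ℝ) : Prop :=
  ∀ Y C : Finset α, ρ * mass w ≤ ∑ y ∈ Y, w y → ρ * mass w' ≤ ∑ z ∈ C, w' z →
    ε * ((∑ y ∈ Y, w y) * ∑ z ∈ C, w' z) ≤
      ∑ y ∈ Y, w y * ∑ z ∈ C.filter (fun z => col y z = c), w' z

/-- bi-density gives lower regularity for sets -/
private lemma BDP.reg {col : α → α → Fin k} {c : Fin k} {w w' : α → ℝ} {ρ ε : ℝ}
    (hw : ∀ x, 0 ≤ w x) (h : BDP col c w w' ρ ε)
    (Y C : Finset α) (hY : ρ * mass w ≤ ∑ y ∈ Y, w y) (hC : ρ * mass w' ≤ ∑ y ∈ C, w' y)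
    (hY0 : 0 < ∑ y ∈ Y, w y) :
    ∃ y ∈ Y, ε * ∑ z ∈ C, w' z ≤ ∑ z ∈ C.filter (fun z => col y z = c), w' z := by
  by_contra hcon
  push Not at hcon
  have h1 := h Y C hY hC
  have h3 : ∑ x ∈ Y, w x * ∑ z ∈ C.filter (fun z => col x z = c), w' z <
      ∑ x ∈ Y, w x * (ε * ∑ z ∈ C, w' z) := by
    obtain ⟨y0, hy0, hy0w⟩ : ∃ y ∈ Y, 0 < w y := by
      by_contra hall
      push Not at hall
      have : ∑ y ∈ Y, w y ≤ 0 := sum_nonpos hall
      linarith
    apply sum_lt_sum
    · intro x hx
      exact mul_le_mul_of_nonneg_left (hcon x hx).le (hw x)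
    · exact ⟨y0, hy0, mul_lt_mul_of_pos_left (hcon y0 hy0) hy0w⟩
  rw [← sum_mul] at h3
  have h4 : ε * ((∑ y ∈ Y, w y) * ∑ y ∈ C, w' y) = (∑ y ∈ Y, w y) * (ε * ∑ z ∈ C, w' z) := by ring
  linarith

theorem emb_parts [Nonempty α] (col : α → α → Fin k) (hsymm : ∀ a b, col a b = col b a) {Δ t : ℕ}
    (c : Fin k) (w : Fin t → α → ℝ) (hw : ∀ i x, 0 ≤ w i x) (hw1 : ∀ i x, w i x ≤ 1)
    (ρ ε δ : ℝ) (h : ∀ i j, i ≠ j → BDP col c (w i) (w j) ρ ε) (hε : 0 < ε) (hε1 : ε ≤ 1)
    (hδ : 0 < δ) (hρ0 : 0 ≤ ρ) (hρ : (Δ + 1) * ρ ≤ δ * ε ^ Δ / 2)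
    (n : ℕ) (H : SimpleGraph (Fin n)) (hdeg : ∀ x, (univ.filter (H.Adj x)).card ≤ Δ)
    (f : Fin n → Fin t) (hf : ∀ x y, H.Adj x y → f x ≠ f y)
    (C0 : Fin n → Finset α) (U : Finset α) (S : Finset (Fin n))
    (hC0 : ∀ x ∈ S, δ * mass (w (f x)) ≤ ∑ y ∈ C0 x, w (f x) y)
    (hUS : ∀ i, ((U.card : ℝ) + S.card) ≤ δ * ε ^ Δ / 2 * mass (w i)) :
    ∃ φ : Fin n → α, (∀ x ∈ S, φ x ∈ C0 x ∧ φ x ∉ U) ∧ Set.InjOn φ S ∧
      ∀ x ∈ S, ∀ y ∈ S, H.Adj x y → col (φ x) (φ y) = c := by
  have hm0 : ∀ i, 0 ≤ mass (w i) := fun i => mass_nonneg (hw i)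
  have hdegT : ∀ (T : Finset (Fin n)) x, (T.filter (H.Adj x)).card ≤ Δ := fun T x =>
    (card_le_card (filter_subset_filter _ (subset_univ T))).trans (hdeg x)
  have hpow : ∀ n, n ≤ Δ → ε ^ Δ ≤ ε ^ n := fun n hn => pow_le_pow_of_le_one hε.le hε1 hn
  have hρδ : ρ ≤ δ * ε ^ Δ := by
    have h1 : 0 ≤ (Δ:ℝ) * ρ := by positivity
    have h2 : 0 ≤ δ * ε ^ Δ := by positivity
    linarith
  have main : ∀ T : Finset (Fin n), T ⊆ S → ∃ φ : Fin n → α, (∀ x ∈ T, φ x ∈ C0 x ∧ φ x ∉ U) ∧
      Set.InjOn φ T ∧ (∀ x ∈ T, ∀ y ∈ T, H.Adj x y → col (φ x) (φ y) = c) ∧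
      ∀ x ∈ S, x ∉ T → δ * ε ^ (T.filter (H.Adj x)).card * mass (w (f x)) ≤
        ∑ z ∈ (C0 x).filter (fun z => ∀ y ∈ T, H.Adj x y → col (φ y) z = c), w (f x) z := by
    intro T
    induction T using Finset.induction_on with
    | empty =>
      intro _
      obtain ⟨a⟩ := ‹Nonempty α›
      refine ⟨fun _ => a, by simp, by simp, by simp, ?_⟩
      intro x hxS _
      simpa using hC0 x hxS
    | insert a T haT ih =>
      intro hTS
      obtain ⟨φ, h1, h2, h3, h4⟩ := ih ((subset_insert _ _).trans hTS)
      have haS : a ∈ S := hTS (mem_insert_self _ _)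
      have hSpos : (1:ℝ) ≤ S.card := by
        exact_mod_cast (card_pos.mpr ⟨a, haS⟩)
      have hUnn : (0:ℝ) ≤ U.card := Nat.cast_nonneg _
      obtain ⟨Cand, hCand⟩ : ∃ Cand : Fin n → Finset α, Cand = fun x => (C0 x).filter
        (fun z => ∀ y ∈ T, H.Adj x y → col (φ y) z = c) := ⟨_, rfl⟩
      have hCandx : ∀ x, (C0 x).filter (fun z => ∀ y ∈ T, H.Adj x y → col (φ y) z = c) = Cand x := by
        intro x; rw [hCand]
      simp only [hCandx] at h4
      have hCandcard : ∀ x ∈ S, x ∉ T → δ * ε ^ Δ * mass (w (f x)) ≤ ∑ z ∈ Cand x, w (f x) z := by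
        intro x hxS hx
        refine le_trans ?_ (h4 x hxS hx)
        have := hpow _ (hdegT T x)
        have := hm0 (f x)
        gcongr
      obtain ⟨Bad, hBad⟩ : ∃ Bad : Fin n → Finset α, Bad = fun x => univ.filter
        (fun z => ∑ v ∈ (Cand x).filter (fun v => col z v = c), w (f x) v <
          ε * ∑ v ∈ Cand x, w (f x) v) := ⟨_, rfl⟩
      have hBadcard : ∀ x ∈ S, x ∉ T → f a ≠ f x →
          ∑ z ∈ Bad x, w (f a) z ≤ ρ * mass (w (f a)) := by
        intro x hxS hxT hax
        by_contra hcon
        push Not at hcon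
        obtain ⟨y, hy, hy2⟩ := (h (f a) (f x) hax).reg (hw (f a)) (Bad x) (Cand x) hcon.le (by
          refine le_trans ?_ (hCandcard x hxS hxT)
          have := hm0 (f x)
          gcongr) (lt_of_le_of_lt (mul_nonneg hρ0 (hm0 (f a))) hcon)
        rw [hBad, mem_filter] at hy
        exact absurd hy2 (not_le.mpr hy.2)
      obtain ⟨BadU, hBadU⟩ : ∃ BadU, BadU = ((univ.filter (H.Adj a)).filter
        (fun x => x ∈ S ∧ x ∉ T)).biUnion Bad := ⟨_, rfl⟩
      have hBadUcard : ∑ z ∈ BadU, w (f a) z ≤ Δ * (ρ * mass (w (f a))) := by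
        rw [hBadU]
        refine (sum_biUnion_le' (hw (f a)) _ _).trans ?_
        have : ∑ x ∈ (univ.filter (H.Adj a)).filter (fun x => x ∈ S ∧ x ∉ T),
            ∑ z ∈ Bad x, w (f a) z ≤
            ∑ x ∈ (univ.filter (H.Adj a)).filter (fun x => x ∈ S ∧ x ∉ T),
              ρ * mass (w (f a)) := by
          apply sum_le_sum
          intro x hx
          rw [mem_filter, mem_filter] at hx
          exact hBadcard x hx.2.1 hx.2.2 (hf a x hx.1.2)
        refine this.trans ?_
        rw [sum_const, nsmul_eq_mul]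
        have h5 : (((univ.filter (H.Adj a)).filter (fun x => x ∈ S ∧ x ∉ T)).card : ℝ) ≤ Δ := by
          exact_mod_cast (card_le_card (filter_subset _ _)).trans (hdeg a)
        have : (0:ℝ) ≤ ρ * mass (w (f a)) := mul_nonneg hρ0 (hm0 (f a))
        gcongr
      have hex : ∃ z ∈ Cand a, z ∉ U ∪ (T.image φ ∪ BadU) := by
        by_contra hcon
        push Not at hcon
        have hsub : Cand a ⊆ U ∪ (T.image φ ∪ BadU) := fun z hz => hcon z hz
        have hc1 : ∑ z ∈ Cand a, w (f a) z ≤ ∑ z ∈ U ∪ (T.image φ ∪ BadU), w (f a) z :=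
          sum_le_sum_of_subset_of_nonneg hsub fun x _ _ => hw (f a) x
        have hc2 := sum_union_le (hw (f a)) U (T.image φ ∪ BadU)
        have hc3 := sum_union_le (hw (f a)) (T.image φ) BadU
        have hc4 := sum_le_card (hw1 (f a)) U
        have hc5 : ∑ z ∈ T.image φ, w (f a) z ≤ T.card :=
          (sum_le_card (hw1 (f a)) _).trans (by exact_mod_cast card_image_le)
        have hc6 : (T.card : ℝ) + 1 ≤ S.card := by
          have : T.card + 1 ≤ S.card := by
            rw [← card_insert_of_notMem haT]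
            exact card_le_card hTS
          exact_mod_cast this
        have hc7 := hCandcard a haS haT
        have hc8 : Δ * (ρ * mass (w (f a))) ≤ δ * ε ^ Δ / 2 * mass (w (f a)) := by
          rw [← mul_assoc]
          apply mul_le_mul_of_nonneg_right _ (hm0 (f a))
          linarith
        have hc9 : δ * ε ^ Δ * mass (w (f a)) =
            δ * ε ^ Δ / 2 * mass (w (f a)) + δ * ε ^ Δ / 2 * mass (w (f a)) := by ring
        have hc10 := hUS (f a)
        linarith
      obtain ⟨z, hz, hzn⟩ := hex
      rw [mem_union, mem_union] at hzn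
      push Not at hzn
      obtain ⟨hzU, hzT, hzB⟩ := hzn
      have hzC : z ∈ C0 a ∧ ∀ y ∈ T, H.Adj a y → col (φ y) z = c := by
        rw [hCand, mem_filter] at hz; exact hz
      have hup : ∀ y ∈ T, Function.update φ a z y = φ y := by
        intro y hy
        rw [Function.update_of_ne]
        rintro rfl
        exact haT hy
      refine ⟨Function.update φ a z, ?_, ?_, ?_, ?_⟩
      · intro x hx
        rw [mem_insert] at hx
        rcases hx with rfl | hx
        · rw [Function.update_self]
          exact ⟨hzC.1, hzU⟩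
        · rw [hup x hx]; exact h1 x hx
      · intro x hx y hy hxy
        rw [mem_coe, mem_insert] at hx hy
        rcases hx with rfl | hx
        · rcases hy with rfl | hy
          · rfl
          · rw [Function.update_self, hup y hy] at hxy
            exact absurd (mem_image.mpr ⟨y, hy, hxy.symm⟩) hzT
        · rcases hy with rfl | hy
          · rw [Function.update_self, hup x hx] at hxy
            exact absurd (mem_image.mpr ⟨x, hx, hxy⟩) hzT
          · rw [hup x hx, hup y hy] at hxy
            exact h2 hx hy hxy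
      · intro x hx y hy hxy
        rw [mem_insert] at hx hy
        rcases hx with rfl | hx
        · rcases hy with rfl | hy
          · exact absurd hxy (H.irrefl)
          · rw [Function.update_self, hup y hy, hsymm]
            exact hzC.2 y hy hxy
        · rcases hy with rfl | hy
          · rw [Function.update_self, hup x hx]
            exact hzC.2 x hx hxy.symm
          · rw [hup x hx, hup y hy]
            exact h3 x hx y hy hxy
      · intro x hxS hx
        rw [mem_insert] at hx
        push Not at hx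
        obtain ⟨hxa, hxT⟩ := hx
        by_cases hax : H.Adj x a
        · have e1 : (insert a T).filter (H.Adj x) = insert a (T.filter (H.Adj x)) := by
            rw [filter_insert, if_pos hax]
          have e2 : a ∉ T.filter (H.Adj x) := fun h => haT (mem_filter.mp h).1
          rw [e1, card_insert_of_notMem e2]
          have hzgood : ε * ∑ v ∈ Cand x, w (f x) v ≤
              ∑ v ∈ (Cand x).filter (fun v => col z v = c), w (f x) v := by
            by_contra hcon
            push Not at hcon
            apply hzB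
            rw [hBadU, mem_biUnion]
            refine ⟨x, ?_, ?_⟩
            · rw [mem_filter, mem_filter]; exact ⟨⟨mem_univ _, hax.symm⟩, hxS, hxT⟩
            · rw [hBad, mem_filter]; exact ⟨mem_univ _, hcon⟩
          have e3 : (Cand x).filter (fun v => col z v = c) ⊆ (C0 x).filter
              (fun v => ∀ y ∈ insert a T, H.Adj x y → col (Function.update φ a z y) v = c) := by
            intro v hv
            rw [mem_filter, hCand, mem_filter] at hv
            rw [mem_filter]
            refine ⟨hv.1.1, ?_⟩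
            intro y hy hxy
            rw [mem_insert] at hy
            rcases hy with rfl | hy
            · rw [Function.update_self]; exact hv.2
            · rw [hup y hy]; exact hv.1.2 y hy hxy
          have e4 : ∑ v ∈ (Cand x).filter (fun v => col z v = c), w (f x) v ≤ _ :=
            sum_le_sum_of_subset_of_nonneg e3 fun v _ _ => hw (f x) v
          refine le_trans ?_ e4
          refine le_trans ?_ hzgood
          have e5 := h4 x hxS hxT
          have e6 : ε * (δ * ε ^ (T.filter (H.Adj x)).card * mass (w (f x))) ≤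
              ε * ∑ v ∈ Cand x, w (f x) v :=
            mul_le_mul_of_nonneg_left e5 hε.le
          refine le_trans (le_of_eq ?_) e6
          ring
        · have e1 : (insert a T).filter (H.Adj x) = T.filter (H.Adj x) := by
            rw [filter_insert, if_neg hax]
          rw [e1]
          refine (h4 x hxS hxT).trans ?_
          apply sum_le_sum_of_subset_of_nonneg _ fun v _ _ => hw (f x) v
          intro v hv
          rw [hCand, mem_filter] at hv
          rw [mem_filter]
          refine ⟨hv.1, ?_⟩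
          intro y hy hxy
          rw [mem_insert] at hy
          rcases hy with rfl | hy
          · exact absurd hxy hax
          · rw [hup y hy]; exact hv.2 y hy hxy
  obtain ⟨φ, h1, h2, h3, -⟩ := main S le_rfl
  exact ⟨φ, h1, h2, h3⟩

end Pool.Agent.H15.RR
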