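import Pool.Agent.H21.Poly.Weight

/-! Regularisation of finitely many weights by one maximisation.

Notation: `m i Y = ∑ y ∈ Y, w i y`, `e i j Y C = ∑ y ∈ Y, w i y * ∑ z ∈ C.filter (col y z = c), w j z`,
`D i j Y C = e i j Y C / (m i Y * m j C)` (a number in `[0,1]`, symmetric: `D i j Y C = D j i C Y`
by `hsymm`).

PROOF of `regularize`. Put `Λ = ρ ^ 2 / 192`. Configurations: `Z : ι → Finset α` with `0 < m i (Z i)`
for all `i` (finite nonempty set: `Z = fun _ => univ` is one). Energy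
`E Z = ∑ i, ∑ j, (if i = j then 0 else (D i j (Z i) (Z j)) ^ 2) + Λ * ∑ i, Real.logb 2 (m i (Z i))`.
Let `Z` be a configuration of maximal energy.
(1) ONE STEP. Let `Z'` be a configuration, `e' = E Z - E Z'` (nonnegative), `i` an index, `Y` a subset
of `Z' i`, `ν = m i Y / m i (Z' i)`, `0 < ν < 1`, `Yc = Z' i \ Y`. Let `Z1, Z2` be `Z'` with `Z' i`
replaced by `Y` and by `Yc` (configurations). Then
`D i j (Z' i) C = ν * D i j Y C + (1 - ν) * D i j Yc C`, and
`ν * E Z1 + (1 - ν) * E Z2 = E Z' + 2 * ∑ j (j ≠ i), (ν * D(Y)^2 + (1 - ν) * D(Yc)^2 - D(Z' i)^2) - Λ * h`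
with `h = - ν * logb 2 ν - (1 - ν) * logb 2 (1 - ν)`, at most `1`. As `E Z1, E Z2` are at most
`E Z = E Z' + e'` and every bracket is at least `ν * (D(Y) - D(Z' i)) ^ 2`, for every `j ≠ i`:
`2 * ν * (D i j Y (Z' j) - D i j (Z' i) (Z' j)) ^ 2 ≤ e' + Λ`; and (from `E Z2 ≤ E Z' + e'`)
`E Z - E Z1 ≤ e' + (Λ + e') / ν`. Both are trivially true (with `Λ` replaced by `0`) if `ν = 1`
(then `Yc` has weight `0`, `D i j Y C = D i j (Z' i) C`, `m i Y = m i (Z' i)`).
(2) Apply (1) with `Z' = Z`, `e' = 0`, `Y` in `Z i`, `ν ≥ ρ`, then with `Z' = Z1`,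
`e' ≤ Λ / ρ`, the index `j` and `C` in `Z j`: the square of `D i j Y C - D i j (Z i) (Z j)` is at most
`2 * Λ / (2 ρ) + 2 * (Λ / ρ + Λ) / (2 ρ) ≤ 3 * Λ / ρ ^ 2 = 1 / 64`. So `d i j = D i j (Z i) (Z j)` works.
(3) MASS. `E Z ≥ E univ`, the sum of squares is between `0` and `(card ι) ^ 2`, and all
`logb 2 (m i (Z i)) ≤ logb 2 (mass (w i))`; hence for every `i`
`logb 2 (m i (Z i)) ≥ logb 2 (mass (w i)) - (card ι) ^ 2 / Λ ≥ logb 2 (mass (w i)) - B`. -/

namespace Pool.Agent.H15.RR

open Finset Classical Pool.Agent.H21.Poly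

section reg

variable {α : Type*} {k : ℕ} (col : α → α → Fin k) (c : Fin k) {ι : Type} (w : ι → α → ℝ)

/-- the weight of a set -/
private noncomputable def mm (i : ι) (Y : Finset α) : ℝ := ∑ y ∈ Y, w i y

/-- the weight of the pairs of colour `c` -/
private noncomputable def ee (i j : ι) (Y C : Finset α) : ℝ :=
  ∑ y ∈ Y, w i y * ∑ z ∈ C.filter (fun z => col y z = c), w j z

/-- the density -/
private noncomputable def DD (i j : ι) (Y C : Finset α) : ℝ :=
  ee col c w i j Y C / (mm w i Y * mm w j C)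

private theorem mm_nonneg (hw : ∀ i x, 0 ≤ w i x) (i : ι) (Y : Finset α) : 0 ≤ mm w i Y :=
  sum_nonneg fun x _ => hw i x

private theorem ee_nonneg (hw : ∀ i x, 0 ≤ w i x) (i j : ι) (Y C : Finset α) :
    0 ≤ ee col c w i j Y C :=
  sum_nonneg fun x _ => mul_nonneg (hw i x) (sum_nonneg fun z _ => hw j z)

private theorem ee_le (hw : ∀ i x, 0 ≤ w i x) (i j : ι) (Y C : Finset α) :
    ee col c w i j Y C ≤ mm w i Y * mm w j C := by
  unfold ee mm
  rw [Finset.sum_mul]
  refine sum_le_sum fun y _ => mul_le_mul_of_nonneg_left ?_ (hw i y)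
  exact sum_le_sum_of_subset_of_nonneg (filter_subset _ _) fun z _ _ => hw j z

private theorem ee_eq (i j : ι) (Y C : Finset α) : ee col c w i j Y C =
    ∑ y ∈ Y, ∑ z ∈ C, if col y z = c then w i y * w j z else 0 := by
  unfold ee
  refine sum_congr rfl fun y _ => ?_
  rw [mul_sum, sum_filter]

private theorem ee_symm (hsymm : ∀ a b, col a b = col b a) (i j : ι) (Y C : Finset α) :
    ee col c w i j Y C = ee col c w j i C Y := by
  rw [ee_eq, ee_eq, sum_comm]
  refine sum_congr rfl fun z _ => sum_congr rfl fun y _ => ?_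
  rw [hsymm y z, mul_comm]

private theorem DD_symm (hsymm : ∀ a b, col a b = col b a) (i j : ι) (Y C : Finset α) :
    DD col c w i j Y C = DD col c w j i C Y := by
  unfold DD
  rw [ee_symm col c w hsymm i j Y C, mul_comm]

private theorem DD_nonneg (hw : ∀ i x, 0 ≤ w i x) (i j : ι) (Y C : Finset α) :
    0 ≤ DD col c w i j Y C :=
  div_nonneg (ee_nonneg col c w hw i j Y C) (mul_nonneg (mm_nonneg w hw i Y) (mm_nonneg w hw j C))

private theorem DD_le_one (hw : ∀ i x, 0 ≤ w i x) (i j : ι) (Y C : Finset α) :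
    DD col c w i j Y C ≤ 1 :=
  div_le_one_of_le₀ (ee_le col c w hw i j Y C)
    (mul_nonneg (mm_nonneg w hw i Y) (mm_nonneg w hw j C))

private theorem mm_split (i : ι) {Y A : Finset α} (h : Y ⊆ A) :
    mm w i A = mm w i Y + mm w i (A \ Y) := by
  unfold mm
  rw [add_comm, sum_sdiff h]

private theorem ee_split (i j : ι) {Y A : Finset α} (C : Finset α) (h : Y ⊆ A) :
    ee col c w i j A C = ee col c w i j Y C + ee col c w i j (A \ Y) C := by
  unfold ee
  rw [add_comm, sum_sdiff h]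

private theorem dsum_split {ι : Type} [Fintype ι] (G : ι → ι → ℝ) (hs : ∀ a b, G a b = G b a)
    (i : ι) (hi : G i i = 0) : ∑ a, ∑ b, G a b =
      ∑ a ∈ univ.erase i, ∑ b ∈ univ.erase i, G a b + 2 * ∑ b ∈ univ.erase i, G i b := by
  have h1 : ∀ a, ∑ b, G a b = G a i + ∑ b ∈ univ.erase i, G a b :=
    fun a => (Finset.add_sum_erase univ (G a) (mem_univ i)).symm
  rw [← Finset.add_sum_erase univ (fun a => ∑ b, G a b) (mem_univ i)]
  simp only [h1]
  rw [hi, sum_add_distrib]
  have h2 : ∑ a ∈ univ.erase i, G a i = ∑ a ∈ univ.erase i, G i a :=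
    sum_congr rfl fun a _ => hs a i
  rw [h2]
  ring

/-- the energy -/
private noncomputable def En [Fintype ι] (L : ℝ) (Z : ι → Finset α) : ℝ :=
  (∑ i, ∑ j, if i = j then 0 else (DD col c w i j (Z i) (Z j)) ^ 2) +
    L * ∑ i, Real.log (mm w i (Z i))

/-- the part of the energy without the index `i` -/
private noncomputable def Er [Fintype ι] (L : ℝ) (Z : ι → Finset α) (i : ι) : ℝ :=
  (∑ a ∈ univ.erase i, ∑ b ∈ univ.erase i,
    if a = b then 0 else (DD col c w a b (Z a) (Z b)) ^ 2) +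
    L * ∑ a ∈ univ.erase i, Real.log (mm w a (Z a))

private theorem En_split [Fintype ι] (hsymm : ∀ a b, col a b = col b a) (L : ℝ)
    (Z : ι → Finset α) (i : ι) : En col c w L Z = Er col c w L Z i +
      2 * ∑ j ∈ univ.erase i, (DD col c w i j (Z i) (Z j)) ^ 2 +
        L * Real.log (mm w i (Z i)) := by
  unfold En Er
  rw [dsum_split (fun a b => if a = b then 0 else (DD col c w a b (Z a) (Z b)) ^ 2) ?_ i ?_,
    ← Finset.add_sum_erase univ (fun a => Real.log (mm w a (Z a))) (mem_univ i)]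
  · have h1 : ∑ b ∈ univ.erase i, (if i = b then 0 else (DD col c w i b (Z i) (Z b)) ^ 2) =
        ∑ b ∈ univ.erase i, (DD col c w i b (Z i) (Z b)) ^ 2 := by
      refine sum_congr rfl fun b hb => ?_
      rw [if_neg (ne_of_mem_erase hb).symm]
    rw [h1]
    ring
  · intro a b
    by_cases h : a = b
    · rw [if_pos h, if_pos h.symm]
    · rw [if_neg h, if_neg (Ne.symm h), DD_symm col c w hsymm]
  · exact if_pos rfl

private theorem En_update [Fintype ι] (hsymm : ∀ a b, col a b = col b a) (L : ℝ)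
    (V : ι → Finset α) (i : ι) (Y : Finset α) :
    En col c w L (Function.update V i Y) = Er col c w L V i +
      2 * ∑ j ∈ univ.erase i, (DD col c w i j Y (V j)) ^ 2 + L * Real.log (mm w i Y) := by
  have hu : ∀ a ∈ univ.erase i, Function.update V i Y a = V a := fun a ha =>
    Function.update_of_ne (ne_of_mem_erase ha) _ _
  rw [En_split col c w hsymm L _ i, Function.update_self]
  congr 2
  · unfold Er
    congr 1
    · refine sum_congr rfl fun a ha => sum_congr rfl fun b hb => ?_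
      rw [hu a ha, hu b hb]
    · congr 1
      refine sum_congr rfl fun a ha => ?_
      rw [hu a ha]
  · congr 1
    refine sum_congr rfl fun a ha => ?_
    rw [hu a ha]

private theorem ent_bound {ν : ℝ} : -Real.log 2 ≤ ν * Real.log ν + (1 - ν) * Real.log (1 - ν) := by
  have h1 := Real.binEntropy_le_log_two (p := ν)
  unfold Real.binEntropy at h1
  rw [Real.log_inv, Real.log_inv] at h1
  linarith

/-- one step -/
private theorem one_step [Fintype ι] (hsymm : ∀ a b, col a b = col b a)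
    (hw : ∀ i x, 0 ≤ w i x) {L Λ M : ℝ} (hL : L * Real.log 2 = Λ) (hL0 : 0 ≤ L)
    (hM : ∀ Z : ι → Finset α, (∀ i, 0 < mm w i (Z i)) → En col c w L Z ≤ M)
    (V : ι → Finset α) (hV : ∀ i, 0 < mm w i (V i)) (i : ι) (Y : Finset α) (hY : Y ⊆ V i)
    (hYp : 0 < mm w i Y) :
    (∀ j, j ≠ i → 2 * (mm w i Y / mm w i (V i)) *
      (DD col c w i j Y (V j) - DD col c w i j (V i) (V j)) ^ 2 ≤ (M - En col c w L V) + Λ) ∧
    (mm w i Y / mm w i (V i)) * (M - En col c w L (Function.update V i Y)) ≤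
      (M - En col c w L V) + Λ := by
  have hm := hV i
  have hΛ : 0 ≤ Λ := by
    rw [← hL]
    exact mul_nonneg hL0 (Real.log_nonneg (by norm_num))
  have hsp := mm_split w i hY
  have hr0 := mm_nonneg w hw i (V i \ Y)
  have hFV : En col c w L V = Er col c w L V i +
      2 * ∑ j ∈ univ.erase i, (DD col c w i j (V i) (V j)) ^ 2 + L * Real.log (mm w i (V i)) :=
    En_split col c w hsymm L V i
  have hF1 := En_update col c w hsymm L V i Y
  rcases hr0.eq_or_lt with hr | hr
  · -- the complement has weight zero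
    rw [← hr, add_zero] at hsp
    have hD : ∀ j, DD col c w i j Y (V j) = DD col c w i j (V i) (V j) := by
      intro j
      have h1 := ee_split col c w i j (V j) hY
      have h2 : ee col c w i j (V i \ Y) (V j) = 0 := by
        apply le_antisymm _ (ee_nonneg col c w hw _ _ _ _)
        have h3 := ee_le col c w hw i j (V i \ Y) (V j)
        rw [← hr, zero_mul] at h3
        exact h3
      rw [h2, add_zero] at h1
      unfold DD
      rw [h1, hsp]
    have hE : En col c w L (Function.update V i Y) = En col c w L V := by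
      rw [hF1, hFV, hsp]
      simp only [hD]
    have hMV := hM V hV
    constructor
    · intro j _
      rw [hD j, sub_self]
      have : (0 : ℝ) ^ 2 = 0 := by norm_num
      rw [this, mul_zero]
      linarith
    · rw [hE, hsp, div_self (by rw [← hsp]; exact hm.ne'), one_mul]
      linarith
  · have hF2 := En_update col c w hsymm L V i (V i \ Y)
    obtain ⟨m, hmd⟩ : ∃ m, m = mm w i (V i) := ⟨_, rfl⟩
    obtain ⟨p, hpd⟩ : ∃ p, p = mm w i Y := ⟨_, rfl⟩
    obtain ⟨r, hrd⟩ : ∃ r, r = mm w i (V i \ Y) := ⟨_, rfl⟩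
    rw [← hmd] at hm hsp hFV ⊢
    rw [← hpd] at hYp hsp hF1 ⊢
    rw [← hrd] at hr hsp hF2
    obtain ⟨ν, hν⟩ : ∃ ν, ν = p / m := ⟨_, rfl⟩
    have hν0 : 0 < ν := by rw [hν]; exact div_pos hYp hm
    have hν1 : 1 - ν = r / m := by
      rw [hν, eq_div_iff hm.ne', sub_mul, div_mul_cancel₀ _ hm.ne', hsp]
      ring
    have hν1' : 0 < 1 - ν := by rw [hν1]; exact div_pos hr hm
    rw [← hν]
    have hd : ∀ j, DD col c w i j (V i) (V j) = ν * DD col c w i j Y (V j) +
        (1 - ν) * DD col c w i j (V i \ Y) (V j) := by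
      intro j
      have hmj := hV j
      rw [hν1, hν]
      unfold DD
      rw [ee_split col c w i j (V j) hY, ← hmd, ← hpd, ← hrd]
      field_simp
    have hbr : ∀ j ∈ univ.erase i,
        ν * (DD col c w i j Y (V j) - DD col c w i j (V i) (V j)) ^ 2 ≤
          ν * DD col c w i j Y (V j) ^ 2 + (1 - ν) * DD col c w i j (V i \ Y) (V j) ^ 2 -
            DD col c w i j (V i) (V j) ^ 2 := by
      intro j _
      obtain ⟨x, hx⟩ : ∃ x, x = DD col c w i j Y (V j) := ⟨_, rfl⟩
      obtain ⟨y, hy⟩ : ∃ y, y = DD col c w i j (V i \ Y) (V j) := ⟨_, rfl⟩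
      rw [hd j, ← hx, ← hy]
      have h1 : ν * x ^ 2 + (1 - ν) * y ^ 2 - (ν * x + (1 - ν) * y) ^ 2 -
          ν * (x - (ν * x + (1 - ν) * y)) ^ 2 = (1 - ν) * (y - (ν * x + (1 - ν) * y)) ^ 2 := by
        ring
      have h2 : 0 ≤ (1 - ν) * (y - (ν * x + (1 - ν) * y)) ^ 2 :=
        mul_nonneg hν1'.le (sq_nonneg _)
      linarith
    have hsum := sum_le_sum hbr
    simp only [sum_sub_distrib, sum_add_distrib, ← mul_sum] at hsum
    have hent : -Real.log 2 ≤ ν * Real.log p + (1 - ν) * Real.log r - Real.log m := by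
      have h1 := ent_bound (ν := ν)
      have h2 : Real.log ν = Real.log p - Real.log m := by
        rw [hν, Real.log_div hYp.ne' hm.ne']
      have h3 : Real.log (1 - ν) = Real.log r - Real.log m := by
        rw [hν1, Real.log_div hr.ne' hm.ne']
      rw [h2, h3] at h1
      linarith
    have hent2 : -Λ ≤ L * (ν * Real.log p + (1 - ν) * Real.log r - Real.log m) := by
      rw [← hL]
      have := mul_le_mul_of_nonneg_left hent hL0
      linarith
    have hkey : En col c w L V + 2 * (ν * ∑ j ∈ univ.erase i,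
        (DD col c w i j Y (V j) - DD col c w i j (V i) (V j)) ^ 2) - Λ ≤
        ν * En col c w L (Function.update V i Y) +
          (1 - ν) * En col c w L (Function.update V i (V i \ Y)) := by
      rw [hFV, hF1, hF2]
      linarith
    have hupd : ∀ X : Finset α, 0 < mm w i X → En col c w L (Function.update V i X) ≤ M := by
      intro X hX
      apply hM
      intro a
      by_cases ha : a = i
      · subst ha
        rw [Function.update_self]
        exact hX
      · rw [Function.update_of_ne ha]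
        exact hV a
    have hM1 := hupd Y (by rw [← hpd]; exact hYp)
    have hM2 := hupd (V i \ Y) (by rw [← hrd]; exact hr)
    have hM1' := mul_le_mul_of_nonneg_left hM1 hν0.le
    have hM2' := mul_le_mul_of_nonneg_left hM2 hν1'.le
    constructor
    · intro j hj
      have h1 : (DD col c w i j Y (V j) - DD col c w i j (V i) (V j)) ^ 2 ≤
          ∑ j ∈ univ.erase i, (DD col c w i j Y (V j) - DD col c w i j (V i) (V j)) ^ 2 :=
        single_le_sum (f := fun j => (DD col c w i j Y (V j) - DD col c w i j (V i) (V j)) ^ 2)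
          (fun a _ => sq_nonneg _) (mem_erase.2 ⟨hj, mem_univ _⟩)
      have h2 := mul_le_mul_of_nonneg_left h1 hν0.le
      linarith
    · have h0 : 0 ≤ ν * ∑ j ∈ univ.erase i,
          (DD col c w i j Y (V j) - DD col c w i j (V i) (V j)) ^ 2 :=
        mul_nonneg hν0.le (sum_nonneg fun a _ => sq_nonneg _)
      linarith

end reg

theorem regularize {α : Type*} [Fintype α] {k : ℕ} (col : α → α → Fin k)
    (hsymm : ∀ a b, col a b = col b a) (c : Fin k) {ι : Type} [Fintype ι] (w : ι → α → ℝ)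
    (hw : ∀ i x, 0 ≤ w i x) (hpos : ∀ i, 0 < mass (w i)) (ρ : ℝ) (hρ : 0 < ρ) (hρ1 : ρ ≤ 1)
    (B : ℕ) (hB : 192 * (Fintype.card ι : ℝ) ^ 2 ≤ B * ρ ^ 2) :
    ∃ (Z : ι → Finset α) (d : ι → ι → ℝ), (∀ i j, d i j = d j i) ∧
      (∀ i, (1 / 2) ^ B * mass (w i) ≤ ∑ y ∈ Z i, w i y) ∧
      ∀ i j, i ≠ j → ∀ Y ⊆ Z i, ∀ C ⊆ Z j, ρ * ∑ y ∈ Z i, w i y ≤ ∑ y ∈ Y, w i y →
        ρ * ∑ z ∈ Z j, w j z ≤ ∑ z ∈ C, w j z →
        |(∑ y ∈ Y, w i y * ∑ z ∈ C.filter (fun z => col y z = c), w j z) -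
          d i j * ((∑ y ∈ Y, w i y) * ∑ z ∈ C, w j z)| ≤
          1 / 8 * ((∑ y ∈ Y, w i y) * ∑ z ∈ C, w j z) := by
  obtain ⟨L, hLd⟩ : ∃ L, L = ρ ^ 2 / 192 / Real.log 2 := ⟨_, rfl⟩
  have hl2 : 0 < Real.log 2 := Real.log_pos (by norm_num)
  have hρ2 : 0 < ρ ^ 2 / 192 := by positivity
  have hL : L * Real.log 2 = ρ ^ 2 / 192 := by
    rw [hLd, div_mul_cancel₀ _ hl2.ne']
  have hLp : 0 < L := by
    rw [hLd]
    exact div_pos hρ2 hl2
  have hmass : ∀ i, mm w i univ = mass (w i) := fun i => rfl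
  have : Nonempty {Z : ι → Finset α // ∀ i, 0 < mm w i (Z i)} :=
    ⟨⟨fun _ => univ, fun i => by rw [hmass]; exact hpos i⟩⟩
  obtain ⟨⟨Z, hZ⟩, hmax⟩ := Finite.exists_max
    (fun Z : {Z : ι → Finset α // ∀ i, 0 < mm w i (Z i)} => En col c w L Z.1)
  have hM : ∀ Z' : ι → Finset α, (∀ i, 0 < mm w i (Z' i)) →
      En col c w L Z' ≤ En col c w L Z := fun Z' hZ' => hmax ⟨Z', hZ'⟩
  refine ⟨Z, fun i j => DD col c w i j (Z i) (Z j), fun i j => DD_symm col c w hsymm _ _ _ _,
    fun i => ?_, ?_⟩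
  · -- the mass
    have h1 := hM (fun _ => univ) (fun i => by rw [hmass]; exact hpos i)
    unfold En at h1
    have h2 : 0 ≤ ∑ i, ∑ j, if i = j then (0 : ℝ) else
        (DD col c w i j (univ : Finset α) (univ : Finset α)) ^ 2 := by
      refine sum_nonneg fun a _ => sum_nonneg fun b _ => ?_
      split_ifs
      · exact le_rfl
      · exact sq_nonneg _
    have h3 : (∑ i, ∑ j, if i = j then (0 : ℝ) else (DD col c w i j (Z i) (Z j)) ^ 2) ≤
        (Fintype.card ι : ℝ) ^ 2 := by
      have h4 : ∀ a b : ι, (if a = b then (0 : ℝ) else (DD col c w a b (Z a) (Z b)) ^ 2) ≤ 1 := by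
        intro a b
        split_ifs
        · exact zero_le_one
        · exact pow_le_one₀ (DD_nonneg col c w hw _ _ _ _) (DD_le_one col c w hw _ _ _ _)
      calc _ ≤ ∑ _i : ι, ∑ _j : ι, (1 : ℝ) := sum_le_sum fun a _ => sum_le_sum fun b _ => h4 a b
        _ = (Fintype.card ι : ℝ) ^ 2 := by
          simp only [sum_const, card_univ, nsmul_eq_mul, mul_one]
          ring
    have hle : ∀ a, mm w a (Z a) ≤ mass (w a) := fun a =>
      sum_le_sum_of_subset_of_nonneg (subset_univ _) fun x _ _ => hw a x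
    have h5 : Real.log (mass (w i)) - Real.log (mm w i (Z i)) ≤
        ∑ a, (Real.log (mass (w a)) - Real.log (mm w a (Z a))) :=
      single_le_sum (f := fun a => Real.log (mass (w a)) - Real.log (mm w a (Z a)))
        (fun a _ => sub_nonneg.2 (Real.log_le_log (hZ a) (hle a))) (mem_univ i)
    rw [sum_sub_distrib] at h5
    have h6 := mul_le_mul_of_nonneg_left h5 hLp.le
    simp only [hmass] at h1
    have h7 : L * (Real.log (mass (w i)) - Real.log (mm w i (Z i))) ≤ (Fintype.card ι : ℝ) ^ 2 := by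
      rw [mul_sub] at h6
      linarith
    have h8 : Real.log (mass (w i)) - Real.log (mm w i (Z i)) ≤ B * Real.log 2 := by
      by_contra hcon
      rw [not_le] at hcon
      have h9 := mul_lt_mul_of_pos_left hcon hLp
      have h10 : L * (B * Real.log 2) = B * (ρ ^ 2 / 192) := by
        rw [← hL]
        ring
      rw [h10] at h9
      have h11 : (Fintype.card ι : ℝ) ^ 2 ≤ B * (ρ ^ 2 / 192) := by
        linarith
      linarith
    have h12 : Real.log ((1 / 2) ^ B * mass (w i)) ≤ Real.log (mm w i (Z i)) := by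
      rw [Real.log_mul (by positivity) (hpos i).ne', Real.log_pow, one_div, Real.log_inv]
      linarith
    exact (Real.log_le_log_iff (mul_pos (by positivity) (hpos i)) (hZ i)).1 h12
  · intro i j hij Y hY C hC hYρ hCρ
    change ρ * mm w i (Z i) ≤ mm w i Y at hYρ
    change ρ * mm w j (Z j) ≤ mm w j C at hCρ
    change |ee col c w i j Y C - DD col c w i j (Z i) (Z j) * (mm w i Y * mm w j C)| ≤
      1 / 8 * (mm w i Y * mm w j C)
    have hYp : 0 < mm w i Y := (mul_pos hρ (hZ i)).trans_le hYρ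
    have hCp : 0 < mm w j C := (mul_pos hρ (hZ j)).trans_le hCρ
    have hν1 : ρ ≤ mm w i Y / mm w i (Z i) := by
      rw [le_div_iff₀ (hZ i)]
      exact hYρ
    have hν2 : ρ ≤ mm w j C / mm w j (Z j) := by
      rw [le_div_iff₀ (hZ j)]
      exact hCρ
    obtain ⟨hA, hB1⟩ := one_step col c w hsymm hw hL hLp.le hM Z hZ i Y hY hYp
    rw [sub_self, zero_add] at hA hB1
    have hZ1 : ∀ a, 0 < mm w a (Function.update Z i Y a) := by
      intro a
      by_cases ha : a = i
      · subst ha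
        rw [Function.update_self]
        exact hYp
      · rw [Function.update_of_ne ha]
        exact hZ a
    have hji : j ≠ i := Ne.symm hij
    obtain ⟨hA2, -⟩ := one_step col c w hsymm hw hL hLp.le hM (Function.update Z i Y) hZ1 j C
      (by rw [Function.update_of_ne hji]; exact hC) hCp
    have ha := hA j hji
    have hb := hA2 i hij
    rw [Function.update_of_ne hji, Function.update_self, DD_symm col c w hsymm j i,
      DD_symm col c w hsymm j i] at hb
    obtain ⟨e', he'⟩ : ∃ e', e' = En col c w L Z - En col c w L (Function.update Z i Y) := ⟨_, rfl⟩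
    rw [← he'] at hb hB1
    have he0 : 0 ≤ e' := by
      rw [he', sub_nonneg]
      exact hM _ hZ1
    have he1 : ρ * e' ≤ ρ ^ 2 / 192 := (mul_le_mul_of_nonneg_right hν1 he0).trans hB1
    obtain ⟨x, hx⟩ : ∃ x, x = DD col c w i j Y C - DD col c w i j Y (Z j) := ⟨_, rfl⟩
    obtain ⟨y, hy⟩ : ∃ y, y = DD col c w i j Y (Z j) - DD col c w i j (Z i) (Z j) := ⟨_, rfl⟩
    rw [← hx] at hb
    rw [← hy] at ha
    have ha2 : 2 * ρ * y ^ 2 ≤ ρ ^ 2 / 192 := by
      refine le_trans ?_ ha
      exact mul_le_mul_of_nonneg_right (by linarith) (sq_nonneg _)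
    have hb2 : 2 * ρ * x ^ 2 ≤ e' + ρ ^ 2 / 192 := by
      refine le_trans ?_ hb
      exact mul_le_mul_of_nonneg_right (by linarith) (sq_nonneg _)
    have hρ0 : ρ ≠ 0 := hρ.ne'
    have ha3 : ρ ^ 2 * (2 * y ^ 2) ≤ ρ ^ 2 * (1 / 192) := by
      have h1 := mul_le_mul_of_nonneg_left ha2 hρ.le
      have h2 : ρ * (ρ ^ 2 / 192) ≤ ρ ^ 2 * (1 / 192) := by
        have h3 : ρ * (ρ ^ 2 / 192) = ρ * (ρ ^ 2 * (1 / 192)) := by ring
        rw [h3]
        exact mul_le_of_le_one_left (by positivity) hρ1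
      have h4 : ρ ^ 2 * (2 * y ^ 2) = ρ * (2 * ρ * y ^ 2) := by ring
      rw [h4]
      exact h1.trans h2
    have hb3 : ρ ^ 2 * (2 * x ^ 2) ≤ ρ ^ 2 * (2 / 192) := by
      have h1 := mul_le_mul_of_nonneg_left hb2 hρ.le
      have h2 : ρ * (ρ ^ 2 / 192) ≤ ρ ^ 2 * (1 / 192) := by
        have h3 : ρ * (ρ ^ 2 / 192) = ρ * (ρ ^ 2 * (1 / 192)) := by ring
        rw [h3]
        exact mul_le_of_le_one_left (by positivity) hρ1
      have h4 : ρ ^ 2 * (2 * x ^ 2) = ρ * (2 * ρ * x ^ 2) := by ring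
      rw [h4]
      refine h1.trans ?_
      rw [mul_add]
      have h5 : ρ ^ 2 * (2 / 192) = ρ ^ 2 / 192 + ρ ^ 2 * (1 / 192) := by ring
      rw [h5]
      exact add_le_add he1 h2
    have hρsq : 0 < ρ ^ 2 := by positivity
    have ha4 := le_of_mul_le_mul_left ha3 hρsq
    have hb4 := le_of_mul_le_mul_left hb3 hρsq
    have hxy : (x + y) ^ 2 ≤ (1 / 8) ^ 2 := by
      have h1 : (x + y) ^ 2 ≤ 2 * x ^ 2 + 2 * y ^ 2 := by
        have := sq_nonneg (x - y)
        nlinarith
      refine h1.trans ?_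
      norm_num at ha4 hb4 ⊢
      linarith
    have habs : |x + y| ≤ 1 / 8 := abs_le_of_sq_le_sq hxy (by norm_num)
    have hsum : x + y = DD col c w i j Y C - DD col c w i j (Z i) (Z j) := by
      rw [hx, hy]
      ring
    have hmm : 0 < mm w i Y * mm w j C := mul_pos hYp hCp
    have hee : ee col c w i j Y C = DD col c w i j Y C * (mm w i Y * mm w j C) := by
      unfold DD
      rw [div_mul_cancel₀ _ hmm.ne']
    rw [hee, ← sub_mul, ← hsum, abs_mul, abs_of_pos hmm]
    exact mul_le_mul_of_nonneg_right habs hmm.le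

end Pool.Agent.H15.RR
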