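import Mathlib

/-! Stable subfamilies and Ramsey cliques.

`stab_min`: PROOF. Among all `I` contained in `I0` with `a` at most `card I` choose one which minimizes
`t I / (card I) ^ (2 m)` (finite nonempty family, `I0` belongs to it because `1` is at most `a` and
`β` is at most `1`, so `a` is at most `(a / β) ^ 2`; all cards are positive because `1` is at most `a`).
Comparing with `I0`: `t I * (card I0) ^ (2 m)` is at most `t I0 * (card I) ^ (2 m)`, which is at most
`(card I0) ^ m * (card I) ^ (2 m)`; as `t I` is at least `1`, `(card I0) ^ m` is at most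
`(card I) ^ (2 m)`, so `card I0` is at most `(card I) ^ 2` (`m` positive) and `a / β` is at most
`card I`. For `J` in `I` with `β * card I` at most `card J` we get `a` at most `card J`, hence
`t I / (card I) ^ (2 m)` is at most `t J / (card J) ^ (2 m)` and
`t J` is at least `t I * (card J / card I) ^ (2 m)`, at least `β ^ (2 m) * t I`.

`ramsey_set`: induction on `a + b` (or on `a` and `b`): if `a = 0` or `b = 0` take the empty set.
Otherwise pick `x` in `J`, split `J.erase x` into the `y` with `lab x y` and the others; one of the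
two has at least `2 ^ (a + b - 1)` elements (`card J - 1` is at least `2 ^ (a+b) - 1`), use
induction and insert `x`.

`stable_family`: let `n1 = (4 ^ m / β) ^ 2`. If every `J` in `I0` with `n1` at most `card J` has
`cl lab m J` positive use `stab_min` with `a = n1` and `t = cl lab m` (`cl` is at most
`card (powersetCard m J) = choose (card J) m`, at most `(card J) ^ m`). Otherwise take `J0` with
`n1` at most `card J0` and `cl lab m J0 = 0`; by `ramsey_set` (with `a = b = m`, `2 ^ (m+m) = 4 ^ m`)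
every `J` in `J0` with `4 ^ m` at most `card J` has a set counted by `cl (not lab)`; use `stab_min`
with `I0 = J0`, `a = 4 ^ m`. -/

namespace Pool.Agent.H15.RR

open Finset Classical

theorem stab_min {ι : Type*} (I0 : Finset ι) (t : Finset ι → ℕ) (m : ℕ) (hm : 0 < m) (β a : ℝ)
    (hβ : 0 < β) (hβ1 : β ≤ 1) (ha : 1 ≤ a)
    (ht : ∀ J ⊆ I0, t J ≤ J.card ^ m)
    (ht1 : ∀ J ⊆ I0, a ≤ J.card → 1 ≤ t J)
    (hI0 : (a / β) ^ 2 ≤ I0.card) :
    ∃ I ⊆ I0, 1 ≤ t I ∧ ∀ J ⊆ I, β * I.card ≤ J.card → β ^ (2 * m) * t I ≤ t J := by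
  obtain ⟨F, hF⟩ : ∃ F : Finset (Finset ι), F = I0.powerset.filter (fun I => a ≤ (I.card : ℝ)) :=
    ⟨_, rfl⟩
  have hmem : ∀ I, I ∈ F ↔ I ⊆ I0 ∧ a ≤ (I.card : ℝ) := by
    intro I
    rw [hF, mem_filter, mem_powerset]
  have hab : a ≤ a / β := by
    rw [le_div_iff₀ hβ]
    nlinarith
  have haI0 : a ≤ (I0.card : ℝ) := by
    have h1 : 1 ≤ a / β := ha.trans hab
    have h2 : a / β ≤ (a / β) ^ 2 := by nlinarith
    linarith
  have hI0F : I0 ∈ F := (hmem I0).2 ⟨Finset.Subset.refl _, haI0⟩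
  obtain ⟨I, hI, hmin⟩ := Finset.exists_min_image F
    (fun I => (t I : ℝ) / (I.card : ℝ) ^ (2 * m)) ⟨I0, hI0F⟩
  obtain ⟨hII0, haI⟩ := (hmem I).1 hI
  have hIpos : (0 : ℝ) < (I.card : ℝ) := by linarith
  have hI0pos : (0 : ℝ) < (I0.card : ℝ) := by linarith
  have htI : 1 ≤ t I := ht1 I hII0 haI
  have htI' : (1 : ℝ) ≤ (t I : ℝ) := by exact_mod_cast htI
  have h1 : (I0.card : ℝ) ^ m ≤ ((I.card : ℝ) ^ 2) ^ m := by
    have h2 := hmin I0 hI0F
    beta_reduce at h2
    rw [div_le_div_iff₀ (by positivity) (by positivity)] at h2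
    have h3 : (t I0 : ℝ) ≤ (I0.card : ℝ) ^ m := by exact_mod_cast ht I0 (Finset.Subset.refl _)
    have h4 : (I0.card : ℝ) ^ (2 * m) ≤ (t I : ℝ) * (I0.card : ℝ) ^ (2 * m) :=
      le_mul_of_one_le_left (by positivity) htI'
    have h5 : (t I0 : ℝ) * (I.card : ℝ) ^ (2 * m) ≤ (I0.card : ℝ) ^ m * (I.card : ℝ) ^ (2 * m) :=
      mul_le_mul_of_nonneg_right h3 (by positivity)
    have h6 : (I0.card : ℝ) ^ (2 * m) = (I0.card : ℝ) ^ m * (I0.card : ℝ) ^ m := by
      rw [two_mul, pow_add]
    have h7 : (I0.card : ℝ) ^ m * (I0.card : ℝ) ^ m ≤ (I0.card : ℝ) ^ m * (I.card : ℝ) ^ (2 * m) := by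
      rw [← h6]
      linarith
    have h8 := le_of_mul_le_mul_left h7 (by positivity)
    rwa [pow_mul] at h8
  have h2 : (I0.card : ℝ) ≤ (I.card : ℝ) ^ 2 :=
    (pow_le_pow_iff_left₀ hI0pos.le (by positivity) hm.ne').1 h1
  have h3 : a / β ≤ (I.card : ℝ) := by
    have h4 : (a / β) ^ 2 ≤ (I.card : ℝ) ^ 2 := hI0.trans h2
    exact (pow_le_pow_iff_left₀ (by positivity) hIpos.le two_ne_zero).1 h4
  have h4 : a ≤ β * (I.card : ℝ) := by
    rw [div_le_iff₀ hβ] at h3
    linarith
  refine ⟨I, hII0, htI, fun J hJ hc => ?_⟩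
  have haJ : a ≤ (J.card : ℝ) := h4.trans hc
  have hJpos : (0 : ℝ) < (J.card : ℝ) := by linarith
  have h5 := hmin J ((hmem J).2 ⟨hJ.trans hII0, haJ⟩)
  beta_reduce at h5
  rw [div_le_div_iff₀ (by positivity) (by positivity)] at h5
  have h6 : (β * (I.card : ℝ)) ^ (2 * m) ≤ (J.card : ℝ) ^ (2 * m) :=
    pow_le_pow_left₀ (by positivity) hc _
  have h7 : (t I : ℝ) * (β * (I.card : ℝ)) ^ (2 * m) ≤ (t I : ℝ) * (J.card : ℝ) ^ (2 * m) :=
    mul_le_mul_of_nonneg_left h6 (by positivity)
  have h8 : (β ^ (2 * m) * (t I : ℝ)) * (I.card : ℝ) ^ (2 * m) ≤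
      (t J : ℝ) * (I.card : ℝ) ^ (2 * m) := by
    have h9 : (β ^ (2 * m) * (t I : ℝ)) * (I.card : ℝ) ^ (2 * m) =
        (t I : ℝ) * (β * (I.card : ℝ)) ^ (2 * m) := by
      rw [mul_pow]
      ring
    rw [h9]
    exact h7.trans h5
  exact le_of_mul_le_mul_right h8 (by positivity)

theorem ramsey_set {ι : Type*} (lab : ι → ι → Prop) (hsym : ∀ x y, lab x y → lab y x) (a b : ℕ)
    (J : Finset ι) (hJ : 2 ^ (a + b) ≤ J.card) :
    (∃ Q ⊆ J, Q.card = a ∧ ∀ x ∈ Q, ∀ y ∈ Q, x ≠ y → lab x y) ∨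
      (∃ Q ⊆ J, Q.card = b ∧ ∀ x ∈ Q, ∀ y ∈ Q, x ≠ y → ¬ lab x y) := by
  obtain ⟨n, hn⟩ : ∃ n, n = a + b := ⟨_, rfl⟩
  induction n generalizing a b J with
  | zero =>
    have ha : a = 0 := by omega
    subst ha
    exact Or.inl ⟨∅, Finset.empty_subset _, rfl, by simp⟩
  | succ n ih =>
    cases a with
    | zero => exact Or.inl ⟨∅, Finset.empty_subset _, rfl, by simp⟩
    | succ a =>
      cases b with
      | zero => exact Or.inr ⟨∅, Finset.empty_subset _, rfl, by simp⟩
      | succ b =>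
        have hp : 2 ^ (a + 1 + (b + 1)) = 2 * 2 ^ (a + b + 1) := by
          rw [← pow_succ']
          congr 1
          omega
        have hp0 : 0 < 2 ^ (a + b + 1) := by positivity
        have hJ0 : 0 < J.card := by omega
        obtain ⟨x, hx⟩ := Finset.card_pos.1 hJ0
        have hA := Finset.card_filter_add_card_filter_not (s := J.erase x) (fun y => lab x y)
        rw [Finset.card_erase_of_mem hx] at hA
        by_cases hc : 2 ^ (a + b + 1) ≤ ((J.erase x).filter (fun y => lab x y)).card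
        · have h1 : 2 ^ (a + (b + 1)) ≤ ((J.erase x).filter (fun y => lab x y)).card := by
            rw [← add_assoc]
            exact hc
          rcases ih a (b + 1) _ h1 (by omega) with ⟨Q, h2, h3, h4⟩ | ⟨Q, h2, h3, h4⟩
          · left
            have h5 : ∀ y ∈ Q, y ≠ x ∧ y ∈ J ∧ lab x y := by
              intro y hy
              have := Finset.mem_filter.1 (h2 hy)
              exact ⟨(Finset.mem_erase.1 this.1).1, (Finset.mem_erase.1 this.1).2, this.2⟩
            have h6 : x ∉ Q := fun h => (h5 x h).1 rfl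
            refine ⟨insert x Q, ?_, ?_, ?_⟩
            · rw [Finset.insert_subset_iff]
              exact ⟨hx, fun y hy => (h5 y hy).2.1⟩
            · rw [Finset.card_insert_of_notMem h6, h3]
            · intro y hy z hz hyz
              rw [Finset.mem_insert] at hy hz
              rcases hy with rfl | hy
              · rcases hz with rfl | hz
                · exact absurd rfl hyz
                · exact (h5 z hz).2.2
              · rcases hz with rfl | hz
                · exact hsym _ _ (h5 y hy).2.2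
                · exact h4 y hy z hz hyz
          · right
            refine ⟨Q, fun y hy => ?_, h3, h4⟩
            exact (Finset.mem_erase.1 (Finset.mem_filter.1 (h2 hy)).1).2
        · have h1 : 2 ^ (a + 1 + b) ≤ ((J.erase x).filter (fun y => ¬ lab x y)).card := by
            have e : a + 1 + b = a + b + 1 := by omega
            rw [e]
            omega
          rcases ih (a + 1) b _ h1 (by omega) with ⟨Q, h2, h3, h4⟩ | ⟨Q, h2, h3, h4⟩
          · left
            refine ⟨Q, fun y hy => ?_, h3, h4⟩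
            exact (Finset.mem_erase.1 (Finset.mem_filter.1 (h2 hy)).1).2
          · right
            have h5 : ∀ y ∈ Q, y ≠ x ∧ y ∈ J ∧ ¬ lab x y := by
              intro y hy
              have := Finset.mem_filter.1 (h2 hy)
              exact ⟨(Finset.mem_erase.1 this.1).1, (Finset.mem_erase.1 this.1).2, this.2⟩
            have h6 : x ∉ Q := fun h => (h5 x h).1 rfl
            refine ⟨insert x Q, ?_, ?_, ?_⟩
            · rw [Finset.insert_subset_iff]
              exact ⟨hx, fun y hy => (h5 y hy).2.1⟩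
            · rw [Finset.card_insert_of_notMem h6, h3]
            · intro y hy z hz hyz
              rw [Finset.mem_insert] at hy hz
              rcases hy with rfl | hy
              · rcases hz with rfl | hz
                · exact absurd rfl hyz
                · exact (h5 z hz).2.2
              · rcases hz with rfl | hz
                · exact fun h => (h5 y hy).2.2 (hsym _ _ h)
                · exact h4 y hy z hz hyz

/-- The cliques of size `m` in `J` for the relation `P`. -/
noncomputable def cls {ι : Type*} (P : ι → ι → Prop) (m : ℕ) (J : Finset ι) : Finset (Finset ι) :=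
  (J.powersetCard m).filter (fun Q => ∀ x ∈ Q, ∀ y ∈ Q, x ≠ y → P x y)

private theorem cls_card_le {ι : Type*} (P : ι → ι → Prop) (m : ℕ) (J : Finset ι) :
    (cls P m J).card ≤ J.card ^ m := by
  refine (Finset.card_filter_le _ _).trans ?_
  rw [Finset.card_powersetCard]
  exact Nat.choose_le_pow _ _

theorem stable_family {ι : Type*} (I0 : Finset ι) (lab : ι → ι → Prop)
    (hsym : ∀ x y, lab x y → lab y x) (m : ℕ) (hm : 0 < m) (β : ℝ) (hβ : 0 < β) (hβ1 : β ≤ 1)
    (hI0 : ((4 ^ m / β) ^ 2 / β) ^ 2 ≤ (I0.card : ℝ)) :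
    ∃ P : ι → ι → Prop, (P = lab ∨ P = fun x y => ¬ lab x y) ∧
      ∃ I ⊆ I0, 1 ≤ (cls P m I).card ∧ ∀ J ⊆ I, β * I.card ≤ J.card →
        β ^ (2 * m) * ((cls P m I).card : ℝ) ≤ (cls P m J).card := by
  have h4 : (1 : ℝ) ≤ 4 ^ m := one_le_pow₀ (by norm_num)
  have h4b : (1 : ℝ) ≤ 4 ^ m / β := by
    rw [le_div_iff₀ hβ]
    linarith
  have hn1 : (1 : ℝ) ≤ (4 ^ m / β) ^ 2 := one_le_pow₀ h4b
  by_cases hc : ∀ J ⊆ I0, (4 ^ m / β) ^ 2 ≤ (J.card : ℝ) → 1 ≤ (cls lab m J).card
  · obtain ⟨I, h1, h2, h3⟩ := stab_min I0 (fun J => (cls lab m J).card) m hm β ((4 ^ m / β) ^ 2)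
      hβ hβ1 hn1 (fun J _ => cls_card_le lab m J) hc hI0
    exact ⟨lab, Or.inl rfl, I, h1, h2, h3⟩
  · push Not at hc
    obtain ⟨J0, hJ0, h1, h2⟩ := hc
    obtain ⟨P, hP⟩ : ∃ P : ι → ι → Prop, P = fun x y => ¬ lab x y := ⟨_, rfl⟩
    have h3 : ∀ J ⊆ J0, (4 : ℝ) ^ m ≤ (J.card : ℝ) → 1 ≤ (cls P m J).card := by
      intro J hJ hJc
      have h5 : 2 ^ (m + m) ≤ J.card := by
        have e : 2 ^ (m + m) = 4 ^ m := by
          rw [← two_mul, pow_mul]
          norm_num
        rw [e]
        exact_mod_cast hJc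
      rcases ramsey_set lab hsym m m J h5 with ⟨Q, h6, h7, h8⟩ | ⟨Q, h6, h7, h8⟩
      · exfalso
        have h9 : Q ∈ cls lab m J0 := by
          unfold cls
          rw [mem_filter, mem_powersetCard]
          exact ⟨⟨h6.trans hJ, h7⟩, h8⟩
        have h10 := Finset.card_pos.2 ⟨Q, h9⟩
        omega
      · have h9 : Q ∈ cls P m J := by
          unfold cls
          rw [mem_filter, mem_powersetCard, hP]
          exact ⟨⟨h6, h7⟩, h8⟩
        exact Finset.card_pos.2 ⟨Q, h9⟩
    obtain ⟨I, h5, h6, h7⟩ := stab_min J0 (fun J => (cls P m J).card) m hm β (4 ^ m)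
      hβ hβ1 h4 (fun J _ => cls_card_le P m J) h3 h1
    exact ⟨P, Or.inr hP, I, h5.trans hJ0, h6, h7⟩

end Pool.Agent.H15.RR
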